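import Pool.Agent.T2H37.FK.Inv2

/-!
# The theorem on zero-cycles
-/

set_option autoImplicit false
set_option linter.unusedSectionVars false
set_option linter.unusedSimpArgs false

namespace Pool.Agent.T2H37.FK

open MvPolynomial Finset

variable {𝕜 : Type*} [Field 𝕜] [IsAlgClosed 𝕜] [CharZero 𝕜]

variable {N m : ℕ}

/-- the point of the Fermat hypersurface with given coordinates -/
noncomputable def mkX (v : Fin N → 𝕜) (h : OnX m v) : Fermat 𝕜 N m :=
  ⟨Projectivization.mk 𝕜 v h.1, (rep_mk m v h.1).2 h.2⟩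

open Classical in
/-- the function on vectors defined by a function on the points -/
noncomputable def ext0 (φ : Fermat 𝕜 N m → 𝕜) (v : Fin N → 𝕜) : 𝕜 :=
  if h : OnX m v then φ (mkX v h) else 0

lemma ext0_of (φ : Fermat 𝕜 N m → 𝕜) {v : Fin N → 𝕜} (h : OnX m v) : ext0 φ v = φ (mkX v h) :=
  dif_pos h

lemma onX_smul {c : 𝕜} (hc : c ≠ 0) {v : Fin N → 𝕜} (h : OnX m v) : OnX m (c • v) := by
  refine ⟨smul_ne_zero hc h.1, ?_⟩
  have h1 : ∑ i, (c • v) i ^ m = c ^ m * ∑ i, v i ^ m := by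
    simp only [Pi.smul_apply, smul_eq_mul, mul_pow, mul_sum]
  rw [h1, h.2, mul_zero]

lemma mkX_smul {c : 𝕜} (hc : c ≠ 0) {v : Fin N → 𝕜} (h : OnX m v) :
    mkX (c • v) (onX_smul hc h) = mkX v h := by
  apply Subtype.ext
  exact (Projectivization.mk_eq_mk_iff' 𝕜 _ _ _ _).2 ⟨c, rfl⟩

lemma onX_rep (x : Fermat 𝕜 N m) : OnX m x.1.rep := ⟨x.1.rep_nonzero, x.2⟩

lemma mkX_rep (x : Fermat 𝕜 N m) : mkX x.1.rep (onX_rep x) = x := by
  apply Subtype.ext
  exact x.1.mk_rep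

lemma rep_to_chow {d : ℕ} {F : MvPolynomial (Fin N) 𝕜} {s : Multiset (Fin N → 𝕜)}
    (h : Rep m d F s) : ∃ r : Fin d → Fermat 𝕜 N m, IsChowForm r F ∧
      ∀ φ : Fermat 𝕜 N m → 𝕜, (s.map (ext0 φ)).sum = ∑ k, φ (r k) := by
  obtain ⟨hs, hX, c, hc, hF⟩ := h
  obtain ⟨L, rfl⟩ := Quotient.exists_rep s
  change L.length = d at hs
  subst hs
  have hX' : ∀ k : Fin L.length, OnX m (L[k.1]) := fun k => hX _ (List.getElem_mem k.2)
  refine ⟨fun k => mkX (L[k.1]) (hX' k), ?_, ?_⟩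
  · have h1 : ∀ k : Fin L.length, ∃ a : 𝕜, a ≠ 0 ∧
        lin (L[k.1]) = C a * lin (mkX (L[k.1]) (hX' k)).1.rep := by
      intro k
      obtain ⟨a, ha⟩ := Projectivization.exists_smul_eq_mk_rep 𝕜 (L[k.1]) (hX' k).1
      refine ⟨(a⁻¹ : 𝕜ˣ), (a⁻¹ : 𝕜ˣ).ne_zero, ?_⟩
      change _ = _ * lin (Projectivization.mk 𝕜 (L[k.1]) (hX' k).1).rep
      rw [← ha, ← lin_smul]
      change _ = lin (((a⁻¹ : 𝕜ˣ) : 𝕜) • ((a : 𝕜) • L[k.1]))
      rw [smul_smul, Units.inv_mul, one_smul]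
    choose a ha0 ha using h1
    refine ⟨c * ∏ k, a k, mul_ne_zero hc (prod_ne_zero_iff.2 fun k _ => ha0 k), ?_⟩
    rw [hF]
    change C c * (L.map lin).prod = _
    rw [← Fin.prod_univ_fun_getElem, C_mul, mul_assoc, map_prod, ← prod_mul_distrib]
    congr 1
    exact prod_congr rfl fun k _ => ha k
  · intro φ
    change (L.map (ext0 φ)).sum = _
    rw [← Fin.sum_univ_fun_getElem]
    exact sum_congr rfl fun k _ => ext0_of φ (hX' k)

lemma good_of (φ : (Fermat 𝕜 N m →₀ ℤ) →+ 𝕜) (hφ : ∀ z ∈ RatEquivZero 𝕜 N m, φ z = 0) :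
    Good m (ext0 fun x : Fermat 𝕜 N m => φ (Finsupp.single x 1)) := by
  constructor
  · intro c v hc hv
    rw [ext0_of _ hv, ext0_of _ (onX_smul hc hv), mkX_smul hc hv]
  · intro d F hF hdec s s' hs hs'
    obtain ⟨P, hP⟩ := hF
    obtain ⟨r, hr, hr'⟩ := rep_to_chow hs
    obtain ⟨q, hq, hq'⟩ := rep_to_chow hs'
    rw [hr', hq']
    have h1 : Joined r q := by
      refine ⟨P, fun t => ?_, ?_, ?_⟩
      · obtain ⟨s'', hs''⟩ := hdec t
        obtain ⟨p, hp, _⟩ := rep_to_chow hs''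
        rw [← hP]
        exact ⟨p, hp⟩
      · rw [← hP]
        exact hr
      · rw [← hP]
        exact hq
    have h2 := hφ _ (AddSubgroup.subset_closure ⟨d, r, q, h1, rfl⟩)
    rw [map_sub, map_sum, map_sum, sub_eq_zero] at h2
    exact h2

lemma torsion_of {A : Type*} [AddCommGroup A] (w : A) (h : ∀ φ : A →+ 𝕜, φ w = 0) :
    ∃ k : ℕ, 0 < k ∧ k • w = 0 := by
  by_contra hcon
  push Not at hcon
  have hinj : Function.Injective (LinearMap.toSpanSingleton ℤ A w) := by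
    rw [injective_iff_map_eq_zero]
    intro a ha
    rw [LinearMap.toSpanSingleton_apply] at ha
    by_contra ha0
    have h1 : 0 < a.natAbs := Int.natAbs_pos.2 ha0
    apply hcon _ h1
    rcases Int.natAbs_eq a with h2 | h2
    · rw [h2, natCast_zsmul] at ha
      exact ha
    · rw [h2, neg_smul, natCast_zsmul, neg_eq_zero] at ha
      exact ha
  obtain ⟨ψ, hψ⟩ := (Module.Baer.of_divisible (A := 𝕜)).extension_property
    (LinearMap.toSpanSingleton ℤ A w) hinj (LinearMap.toSpanSingleton ℤ 𝕜 1)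
  have h1 := LinearMap.congr_fun hψ 1
  rw [LinearMap.comp_apply, LinearMap.toSpanSingleton_apply, LinearMap.toSpanSingleton_apply,
    one_smul, one_smul] at h1
  exact one_ne_zero (h1.symm.trans (h ψ.toAddMonoidHom))

/-- The main theorem. -/
theorem main (hm : 3 ≤ m) (hN : 3 ≤ N) (hmN : m + 3 ≤ 2 * N) (a : FermatGroup 𝕜 N m →₀ ℤ)
    (ha : ∀ (d : ℕ) (P : MvPolynomial (Fin N) 𝕜), d + N = m → P.IsHomogeneous d →
      ∀ v : Fin N → 𝕜, (a.sum fun g c => (c : 𝕜) * (g.1.1.det * eval (g.1.1.mulVec v) P)) = 0)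
    (z : Fermat 𝕜 N m →₀ ℤ) (hz : (z.sum fun _ c => c) = 0) :
    ∃ k : ℕ, 0 < k ∧ k • (a.sum fun g c => c • z.mapDomain (act g)) ∈ RatEquivZero 𝕜 N m := by
  have : NeZero m := ⟨by omega⟩
  set w : (Fermat 𝕜 N m →₀ ℤ) ⧸ RatEquivZero 𝕜 N m :=
    QuotientAddGroup.mk (a.sum fun g c => c • z.mapDomain (act g)) with hw
  have key : ∀ φ : ((Fermat 𝕜 N m →₀ ℤ) ⧸ RatEquivZero 𝕜 N m) →+ 𝕜, φ w = 0 := by
    intro φ
    set ψ : (Fermat 𝕜 N m →₀ ℤ) →+ 𝕜 := φ.comp (QuotientAddGroup.mk' (RatEquivZero 𝕜 N m)) with hψ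
    have hψ0 : ∀ z ∈ RatEquivZero 𝕜 N m, ψ z = 0 := by
      intro z hz
      rw [hψ, AddMonoidHom.comp_apply, QuotientAddGroup.mk'_apply,
        (QuotientAddGroup.eq_zero_iff z).2 hz, map_zero]
    obtain ⟨V, hV⟩ := (good_of ψ hψ0).wavg_const hm hN hmN a ha
    have h1 : ∀ x : Fermat 𝕜 N m,
        ∑ g ∈ a.support, (a g : 𝕜) * ψ (Finsupp.single (act g x) 1) = V := by
      intro x
      rw [← hV _ (onX_rep x), wavg, Finsupp.sum]
      refine sum_congr rfl fun g _ => ?_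
      rw [ext0_of _ (onX_mulVec g (onX_rep x))]
      rfl
    have h2 : φ w = ψ (a.sum fun g c => c • z.mapDomain (act g)) := rfl
    rw [h2, Finsupp.sum, map_sum]
    have h3 : ∀ g : FermatGroup 𝕜 N m, ψ (a g • z.mapDomain (act g)) =
        ∑ x ∈ z.support, (z x : 𝕜) * ((a g : 𝕜) * ψ (Finsupp.single (act g x) 1)) := by
      intro g
      rw [map_zsmul, Finsupp.mapDomain, Finsupp.sum, map_sum, zsmul_eq_mul, mul_sum]
      refine sum_congr rfl fun x _ => ?_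
      have h4 : (Finsupp.single (act g x) (z x) : Fermat 𝕜 N m →₀ ℤ) =
          z x • Finsupp.single (act g x) 1 := by
        rw [Finsupp.smul_single, smul_eq_mul, mul_one]
      rw [h4, map_zsmul, zsmul_eq_mul]
      ring
    simp only [h3]
    rw [sum_comm]
    simp only [← mul_sum, h1]
    rw [← sum_mul]
    have h5 : ∑ x ∈ z.support, (z x : 𝕜) = 0 := by
      have h6 : ((z.sum fun _ c => c : ℤ) : 𝕜) = 0 := by rw [hz]; simp
      rw [Finsupp.sum] at h6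
      rw [← h6]
      push_cast
      rfl
    rw [h5, zero_mul]
  obtain ⟨k, hk, hkw⟩ := torsion_of w key
  refine ⟨k, hk, ?_⟩
  rw [hw, ← QuotientAddGroup.mk_nsmul] at hkw
  exact (QuotientAddGroup.eq_zero_iff _).1 hkw

end Pool.Agent.T2H37.FK
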