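import Mathlib

/-!
# Zero-cycles on Fermat hypersurfaces

The definitions for the theorem on zero-cycles on quotients of Fermat hypersurfaces.
-/

set_option autoImplicit false

namespace Pool.Agent.T2H37.FK

open MvPolynomial
open scoped LinearAlgebra.Projectivization

variable {𝕜 : Type*} [Field 𝕜]

/-- The points over the field `𝕜` of the Fermat hypersurface `∑ i, x i ^ m = 0` in the projective space
of dimension `N - 1`. -/
def Fermat (𝕜 : Type*) [Field 𝕜] (N m : ℕ) : Type _ := {p : ℙ 𝕜 (Fin N → 𝕜) // ∑ i, p.rep i ^ m = 0}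

/-- The linear form `∑ i, v i * X i` with coefficient vector `v`. -/
noncomputable def lin {N : ℕ} (v : Fin N → 𝕜) : MvPolynomial (Fin N) 𝕜 := ∑ i, C (v i) * X i

/-- `F` is a Chow form of the effective zero-cycle `[p 0] + ... + [p (d - 1)]`: up to a nonzero
scalar it is the product of the linear forms whose coefficient vectors are the homogeneous
coordinates of the points of the cycle. -/
def IsChowForm {N m d : ℕ} (p : Fin d → Fermat 𝕜 N m) (F : MvPolynomial (Fin N) 𝕜) : Prop :=
  ∃ c : 𝕜, c ≠ 0 ∧ F = C c * ∏ k, lin (p k).1.rep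

/-- Two effective zero-cycles of degree `d` on the Fermat hypersurface are joined by a rational
curve in its `d`-th symmetric power: there is a polynomial family, parametrised by the affine line,
of Chow forms of effective zero-cycles of degree `d` on the hypersurface, with the first cycle
at `0` and the second one at `1`. -/
def Joined {N m d : ℕ} (p q : Fin d → Fermat 𝕜 N m) : Prop :=
  ∃ F : Polynomial (MvPolynomial (Fin N) 𝕜),
    (∀ t : 𝕜, ∃ r : Fin d → Fermat 𝕜 N m, IsChowForm r (F.eval (C t))) ∧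
      IsChowForm p (F.eval (C 0)) ∧ IsChowForm q (F.eval (C 1))

/-- The group of zero-cycles rationally equivalent to zero. -/
noncomputable def RatEquivZero (𝕜 : Type*) [Field 𝕜] (N m : ℕ) : AddSubgroup (Fermat 𝕜 N m →₀ ℤ) :=
  AddSubgroup.closure {z | ∃ (d : ℕ) (p q : Fin d → Fermat 𝕜 N m), Joined p q ∧
    z = ∑ k, Finsupp.single (p k) 1 - ∑ k, Finsupp.single (q k) 1}

/-- The group of the invertible matrices that preserve the Fermat form `∑ i, x i ^ m`. -/
def FermatGroup (𝕜 : Type*) [Field 𝕜] (N m : ℕ) : Subgroup (GL (Fin N) 𝕜) where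
  carrier := {g | ∀ v : Fin N → 𝕜, ∑ i, (g.1.mulVec v) i ^ m = ∑ i, v i ^ m}
  mul_mem' := by
    intro g h hg hh v
    have h1 : (g * h).1.mulVec v = g.1.mulVec (h.1.mulVec v) := by
      rw [Matrix.mulVec_mulVec]
      rfl
    rw [h1, hg, hh]
  one_mem' := by
    intro v
    simp
  inv_mem' := by
    intro g hg v
    have h1 := hg (g⁻¹.1.mulVec v)
    rw [Matrix.mulVec_mulVec] at h1
    have h2 : g.1 * g⁻¹.1 = 1 := by
      rw [← Units.val_mul, mul_inv_cancel, Units.val_one]
    rw [h2, Matrix.one_mulVec] at h1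
    exact h1.symm

/-- a vector satisfies the equation iff the coordinates of the point do -/
lemma rep_mk {N : ℕ} (m : ℕ) (v : Fin N → 𝕜) (hv : v ≠ 0) :
    ∑ i, (Projectivization.mk 𝕜 v hv).rep i ^ m = 0 ↔ ∑ i, v i ^ m = 0 := by
  obtain ⟨a, ha⟩ := Projectivization.exists_smul_eq_mk_rep 𝕜 v hv
  have h1 : ∑ i, (Projectivization.mk 𝕜 v hv).rep i ^ m = (a : 𝕜) ^ m * ∑ i, v i ^ m := by
    rw [Finset.mul_sum]
    refine Finset.sum_congr rfl fun i _ => ?_
    rw [← ha, ← mul_pow]
    rfl
  rw [h1, mul_eq_zero]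
  constructor
  · rintro (h | h)
    · exact absurd h (pow_ne_zero _ a.ne_zero)
    · exact h
  · exact Or.inr

lemma mulVec_ne_zero {N : ℕ} (g : GL (Fin N) 𝕜) {v : Fin N → 𝕜} (hv : v ≠ 0) :
    g.1.mulVec v ≠ 0 := by
  intro h
  apply hv
  have h1 : g⁻¹.1.mulVec (g.1.mulVec v) = v := by
    rw [Matrix.mulVec_mulVec, ← Units.val_mul, inv_mul_cancel, Units.val_one, Matrix.one_mulVec]
  rw [← h1, h, Matrix.mulVec_zero]

/-- The action of a matrix that preserves the Fermat form on the points of the hypersurface. -/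
noncomputable def act {N m : ℕ} (g : FermatGroup 𝕜 N m) (x : Fermat 𝕜 N m) : Fermat 𝕜 N m :=
  ⟨Projectivization.mk 𝕜 (g.1.1.mulVec x.1.rep) (mulVec_ne_zero g.1 x.1.rep_nonzero), by
    rw [rep_mk, g.2]
    exact x.2⟩

end Pool.Agent.T2H37.FK
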