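import Pool.Agent.T2H37.FK.Geo2
import Pool.Agent.T2H37.FB.SC

/-!
# Decomposition into characters
-/

set_option autoImplicit false
set_option linter.unusedSectionVars false
set_option linter.unusedSimpArgs false

namespace Pool.Agent.T2H37.FK

open MvPolynomial Finset

variable {𝕜 : Type*} [Field 𝕜] [IsAlgClosed 𝕜] [CharZero 𝕜]

variable {N m : ℕ} [NeZero m]

/-- the diagonal action -/
noncomputable def dg (g : Fin N → ZMod m) (v : Fin N → 𝕜) : Fin N → 𝕜 := fun l => e 𝕜 (g l) * v l

lemma dg_add (g h : Fin N → ZMod m) (v : Fin N → 𝕜) : dg (g + h) v = dg g (dg h v) := by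
  funext l
  simp only [dg, Pi.add_apply, e_add, mul_assoc]

lemma dg_comm (g h : Fin N → ZMod m) (v : Fin N → 𝕜) : dg g (dg h v) = dg h (dg g v) := by
  rw [← dg_add, ← dg_add, add_comm]

lemma onX_dg (g : Fin N → ZMod m) {v : Fin N → 𝕜} (hv : OnX m v) : OnX m (dg g v) := by
  constructor
  · intro h0
    apply hv.1
    funext l
    have h1 := congrFun h0 l
    exact (mul_eq_zero.1 h1).resolve_left (e_ne_zero _)
  · rw [← hv.2]
    refine sum_congr rfl fun l _ => ?_
    rw [dg, mul_pow, e_pow_m, one_mul]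

/-- pairing -/
def pr (α g : Fin N → ZMod m) : ZMod m := ∑ i, α i * g i

lemma pr_add (α g h : Fin N → ZMod m) : pr α (g + h) = pr α g + pr α h := by
  simp only [pr, Pi.add_apply, mul_add, sum_add_distrib]

/-- the component of a function for a character -/
noncomputable def comp (f : (Fin N → 𝕜) → 𝕜) (α : Fin N → ZMod m) (v : Fin N → 𝕜) : 𝕜 :=
  ∑ g : Fin N → ZMod m, e 𝕜 (-pr α g) * f (dg g v)

lemma comp_dg (f : (Fin N → 𝕜) → 𝕜) (α h : Fin N → ZMod m) (v : Fin N → 𝕜) :
    comp f α (dg h v) = e 𝕜 (pr α h) * comp f α v := by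
  simp only [comp, mul_sum]
  refine Fintype.sum_equiv (Equiv.addRight h) _ _ fun g => ?_
  rw [Equiv.coe_addRight, pr_add, ← dg_add, ← mul_assoc, ← e_add]
  congr 2
  abel

lemma sum_char {α : Fin N → ZMod m} (hα : α ≠ 0) :
    ∑ g : Fin N → ZMod m, e 𝕜 (-pr α g) = 0 := by
  obtain ⟨i, hi⟩ : ∃ i, α i ≠ 0 := by
    by_contra hcon
    push Not at hcon
    exact hα (funext hcon)
  have h1 : ∑ g : Fin N → ZMod m, e 𝕜 (-pr α g) =
      e 𝕜 (-α i) * ∑ g : Fin N → ZMod m, e 𝕜 (-pr α g) := by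
    rw [mul_sum]
    symm
    refine Fintype.sum_equiv (Equiv.addRight (Pi.single i 1)) _ _ fun g => ?_
    rw [Equiv.coe_addRight, pr_add, ← e_add]
    congr 1
    have h2 : pr α (Pi.single i 1) = α i := by
      rw [pr, sum_eq_single i]
      · simp
      · intro j _ hj
        rw [Pi.single_eq_of_ne hj, mul_zero]
      · intro h
        exact absurd (mem_univ i) h
    rw [h2]
    abel
  have h2 : e 𝕜 (-α i) ≠ 1 := by
    intro h
    rw [← e_zero (m := m)] at h
    exact hi (neg_eq_zero.1 (e_inj h))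
  have h3 : (1 - e 𝕜 (-α i)) * ∑ g : Fin N → ZMod m, e 𝕜 (-pr α g) = 0 := by
    rw [sub_mul, one_mul, ← h1, sub_self]
  exact (mul_eq_zero.1 h3).resolve_left (sub_ne_zero.2 h2.symm)

lemma sum_char' (g : Fin N → ZMod m) :
    ∑ α : Fin N → ZMod m, e 𝕜 (-pr α g) = if g = 0 then (m : 𝕜) ^ N else 0 := by
  have hpr : ∀ α : Fin N → ZMod m, pr α g = pr g α := by
    intro α
    simp only [pr, mul_comm]
  simp only [hpr]
  split_ifs with hg
  · subst hg
    have h1 : ∀ α : Fin N → ZMod m, e 𝕜 (-pr 0 α) = 1 := by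
      intro α
      simp [pr, e_zero]
    simp only [h1, sum_const, card_univ, Fintype.card_pi, ZMod.card, prod_const, nsmul_eq_mul,
      Fintype.card_fin, mul_one, Nat.cast_pow]
  · exact sum_char hg

lemma sum_comp (f : (Fin N → 𝕜) → 𝕜) (v : Fin N → 𝕜) :
    ∑ α : Fin N → ZMod m, comp f α v = (m : 𝕜) ^ N * f v := by
  simp only [comp]
  rw [sum_comm]
  simp only [← sum_mul, sum_char']
  rw [sum_eq_single 0]
  · rw [if_pos rfl]
    congr 2
    funext l
    simp [dg, e_zero]
  · intro g _ hg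
    rw [if_neg hg, zero_mul]
  · intro h
    exact absurd (mem_univ _) h

variable {f : (Fin N → 𝕜) → 𝕜}

lemma m_ne_zero : (m : 𝕜) ≠ 0 := Nat.cast_ne_zero.2 (NeZero.ne m)

lemma Good.comp_sum_ne (hf : Good m f) {α : Fin N → ZMod m} (hα : ∑ i, α i ≠ 0)
    {v : Fin N → 𝕜} (hv : OnX m v) : comp f α v = 0 := by
  have h1 : comp f α (dg (fun _ => (1 : ZMod m)) v) = comp f α v := by
    simp only [comp]
    refine sum_congr rfl fun g _ => ?_
    rw [dg_comm]
    have h2 : dg (fun _ => (1 : ZMod m)) (dg g v) = e 𝕜 (1 : ZMod m) • dg g v := by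
      funext l
      simp [dg]
    rw [h2, hf.smul _ _ (e_ne_zero _) (onX_dg g hv)]
  rw [comp_dg] at h1
  have h2 : pr α (fun _ => 1) = ∑ i, α i := by simp [pr]
  rw [h2] at h1
  have h3 : e 𝕜 (∑ i, α i) ≠ 1 := by
    intro h
    rw [← e_zero (m := m)] at h
    exact hα (e_inj h)
  have h4 : (e 𝕜 (∑ i, α i) - 1) * comp f α v = 0 := by
    rw [sub_mul, one_mul, h1, sub_self]
  exact (mul_eq_zero.1 h4).resolve_left (sub_ne_zero.2 h3)

lemma Good.comp_B (hf : Good m f) {B : Finset (Fin N)} (hB : B.Nonempty) (hB' : B ≠ univ)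
    {α : Fin N → ZMod m} (hα : ∑ i ∈ B, α i = 0) :
    ∃ V : 𝕜, ∀ v, OnX m v → (m : 𝕜) * comp f α v = (∑ g : Fin N → ZMod m, e 𝕜 (-pr α g)) * V := by
  obtain ⟨V, hV⟩ := hf.TB hB hB'
  refine ⟨V, fun v hv => ?_⟩
  have h1 : ∀ k : ZMod m, ∀ w : Fin N → 𝕜, tB B k w = dg (fun i => if i ∈ B then k else 0) w := by
    intro k w
    funext l
    simp only [tB, dg]
    split_ifs
    · rfl
    · rw [e_zero, one_mul]
  have h2 : ∀ k : ZMod m, comp f α (tB B k v) = comp f α v := by
    intro k
    rw [h1, comp_dg]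
    have h3 : pr α (fun i => if i ∈ B then k else 0) = 0 := by
      simp only [pr, mul_ite, mul_zero, sum_ite_mem, univ_inter]
      rw [← sum_mul, hα, zero_mul]
    rw [h3, e_zero, one_mul]
  have h3 : (m : 𝕜) * comp f α v = ∑ k : ZMod m, comp f α (tB B k v) := by
    simp only [h2, sum_const, card_univ, ZMod.card, nsmul_eq_mul]
  rw [h3]
  simp only [comp]
  rw [sum_comm, sum_mul]
  refine sum_congr rfl fun g _ => ?_
  rw [← mul_sum]
  congr 1
  rw [← hV _ (onX_dg g hv)]
  refine sum_congr rfl fun k _ => ?_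
  rw [h1, h1, dg_comm]

lemma Good.comp_B_zero (hf : Good m f) {B : Finset (Fin N)} (hB : B.Nonempty) (hB' : B ≠ univ)
    {α : Fin N → ZMod m} (hα0 : α ≠ 0) (hα : ∑ i ∈ B, α i = 0) {v : Fin N → 𝕜} (hv : OnX m v) :
    comp f α v = 0 := by
  obtain ⟨V, hV⟩ := hf.comp_B hB hB' hα
  have h1 := hV v hv
  rw [sum_char hα0, zero_mul] at h1
  exact (mul_eq_zero.1 h1).resolve_left m_ne_zero

lemma Good.comp_zero (hf : Good m f) (hN : 2 ≤ N) :
    ∃ V : 𝕜, ∀ v, OnX m v → comp f (0 : Fin N → ZMod m) v = V := by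
  have hB : ({⟨0, by omega⟩} : Finset (Fin N)) ≠ univ := by
    intro h
    have h1 := congrArg Finset.card h
    rw [card_singleton, card_univ, Fintype.card_fin] at h1
    omega
  obtain ⟨V, hV⟩ := hf.comp_B (singleton_nonempty _) hB (α := 0) (by simp)
  refine ⟨(∑ g : Fin N → ZMod m, e 𝕜 (-pr 0 g)) * V / m, fun v hv => ?_⟩
  rw [← hV v hv, mul_div_cancel_left₀ _ m_ne_zero]

lemma pr_comp (σ : Equiv.Perm (Fin N)) (α g : Fin N → ZMod m) :
    pr (fun l => α (σ l)) (fun l => g (σ l)) = pr α g := by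
  simp only [pr]
  exact Equiv.sum_comp σ fun l => α l * g l

lemma Good.comp_swap (hf : Good m f) (hN : 3 ≤ N) {i j : Fin N} (hij : i ≠ j)
    {α : Fin N → ZMod m} (hα0 : α ≠ 0) (hα : α i = α j) {v : Fin N → 𝕜} (hv : OnX m v) :
    comp f α (sw i j v) = -comp f α v := by
  obtain ⟨V, hV⟩ := hf.Tij hN hij
  have h1 : ∀ k : ZMod m, ∀ w : Fin N → 𝕜,
      tij i j k w = dg (fun l => if l = i then k else if l = j then -k else 0) w := by
    intro k w
    funext l
    simp only [tij, dg]
    split_ifs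
    · rfl
    · rfl
    · rw [e_zero, one_mul]
  have h2 : ∀ k : ZMod m, ∀ w : Fin N → 𝕜, comp f α (tij i j k w) = comp f α w := by
    intro k w
    rw [h1, comp_dg]
    have h3 : pr α (fun l => if l = i then k else if l = j then -k else 0) = 0 := by
      rw [pr, sum_split hij]
      rw [if_pos rfl, if_neg hij.symm, if_pos rfl, hα]
      have h4 : ∑ l ∈ (univ.erase i).erase j, α l * (if l = i then k else if l = j then -k else 0)
          = 0 := by
        refine sum_eq_zero fun l hl => ?_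
        rw [mem_erase, mem_erase] at hl
        rw [if_neg hl.2.1, if_neg hl.1, mul_zero]
      rw [h4]
      ring
    rw [h3, e_zero, one_mul]
  have h3 : ∀ w, (m : 𝕜) * comp f α w = ∑ k : ZMod m, comp f α (tij i j k w) := by
    intro w
    simp only [h2, sum_const, card_univ, ZMod.card, nsmul_eq_mul]
  have h4 : ∀ w, (m : 𝕜) * comp f α w =
      ∑ g : Fin N → ZMod m, e 𝕜 (-pr α g) * ∑ k : ZMod m, f (tij i j k (dg g w)) := by
    intro w
    rw [h3]
    simp only [comp]
    rw [sum_comm]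
    refine sum_congr rfl fun g _ => ?_
    rw [← mul_sum]
    congr 1
    refine sum_congr rfl fun k _ => ?_
    rw [h1, h1, dg_comm]
  have h5 : (m : 𝕜) * comp f α (sw i j v) =
      ∑ g : Fin N → ZMod m, e 𝕜 (-pr α g) * ∑ k : ZMod m, f (tij i j k (sw i j (dg g v))) := by
    rw [h4]
    refine Fintype.sum_equiv (Equiv.arrowCongr (Equiv.swap i j) (Equiv.refl _)) _ _ fun g => ?_
    have h6 : (Equiv.arrowCongr (Equiv.swap i j) (Equiv.refl (ZMod m))) g =
        fun l => g (Equiv.swap i j l) := by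
      funext l
      simp [Equiv.arrowCongr]
    rw [h6]
    have h7 : pr α (fun l => g (Equiv.swap i j l)) = pr α g := by
      have h8 : (fun l => α (Equiv.swap i j l)) = α := by
        funext l
        by_cases hli : l = i
        · rw [hli, Equiv.swap_apply_left, hα]
        · by_cases hlj : l = j
          · rw [hlj, Equiv.swap_apply_right, hα]
          · rw [Equiv.swap_apply_of_ne_of_ne hli hlj]
      conv_lhs => rw [← h8]
      exact pr_comp _ α g
    rw [h7]
    congr 1
    refine sum_congr rfl fun k _ => ?_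
    congr 2
    funext l
    simp only [dg, sw]
    rw [Equiv.swap_apply_self]
  have h6 : (m : 𝕜) * (comp f α v + comp f α (sw i j v)) = 0 := by
    rw [mul_add, h5, h4 v, ← sum_add_distrib]
    have h7 : ∀ g : Fin N → ZMod m, e 𝕜 (-pr α g) * ∑ k : ZMod m, f (tij i j k (dg g v)) +
        e 𝕜 (-pr α g) * ∑ k : ZMod m, f (tij i j k (sw i j (dg g v))) = e 𝕜 (-pr α g) * V := by
      intro g
      rw [← mul_add, hV _ (onX_dg g hv)]
    simp only [h7]
    rw [← sum_mul, sum_char hα0, zero_mul]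
  have h7 := (mul_eq_zero.1 h6).resolve_left m_ne_zero
  linear_combination h7

lemma Good.comp_perm (hf : Good m f) (hN : 3 ≤ N) {α : Fin N → ZMod m} (hα0 : α ≠ 0) :
    ∀ (n : ℕ) (σ : Equiv.Perm (Fin N)), σ.support.card = n → (∀ l, α (σ l) = α l) →
      ∀ v : Fin N → 𝕜, OnX m v →
        comp f α (fun l => v (σ l)) = ((Equiv.Perm.sign σ : ℤ) : 𝕜) * comp f α v := by
  intro n
  induction n using Nat.strong_induction_on with
  | _ n ih =>
    intro σ hσ hα v hv
    by_cases h1 : σ = 1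
    · subst h1
      simp
    · obtain ⟨i, hi⟩ : ∃ i, σ i ≠ i := by
        by_contra hcon
        push Not at hcon
        exact h1 (Equiv.ext hcon)
      set τ := Equiv.swap i (σ i) * σ with hτ
      have hlt := Equiv.Perm.card_support_swap_mul hi
      have hαs : ∀ l, α (Equiv.swap i (σ i) l) = α l := by
        intro l
        by_cases hli : l = i
        · rw [hli, Equiv.swap_apply_left, hα]
        · by_cases hlj : l = σ i
          · rw [hlj, Equiv.swap_apply_right, hα]
          · rw [Equiv.swap_apply_of_ne_of_ne hli hlj]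
      have hατ : ∀ l, α (τ l) = α l := by
        intro l
        rw [hτ, Equiv.Perm.mul_apply, hαs, hα]
      have h2 := ih _ (by rw [← hσ]; exact hlt) τ rfl hατ (sw i (σ i) v)
        (onX_perm (Equiv.swap i (σ i)) hv)
      have h3 : (fun l => sw i (σ i) v (τ l)) = fun l => v (σ l) := by
        funext l
        simp only [sw]
        rw [hτ, Equiv.Perm.mul_apply, Equiv.swap_apply_self]
      rw [h3, hf.comp_swap hN hi.symm hα0 (hα i).symm hv] at h2
      rw [h2, hτ, Equiv.Perm.sign_mul, Equiv.Perm.sign_swap hi.symm]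
      push_cast
      ring

end Pool.Agent.T2H37.FK
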