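import Pool.Agent.T2H37.FK.Defs

/-!
# Rational curves in the symmetric powers of Fermat hypersurfaces
-/

set_option autoImplicit false
set_option linter.unusedSectionVars false
set_option linter.unusedSimpArgs false

namespace Pool.Agent.T2H37.FK

open MvPolynomial Finset

variable {𝕜 : Type*} [Field 𝕜] [IsAlgClosed 𝕜] [CharZero 𝕜]

variable {N m : ℕ}

/-- the nonzero vectors on the cone over the Fermat hypersurface -/
def OnX (m : ℕ) (v : Fin N → 𝕜) : Prop := v ≠ 0 ∧ ∑ i, v i ^ m = 0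

/-- polynomial families -/
def PF (F : 𝕜 → MvPolynomial (Fin N) 𝕜) : Prop :=
  ∃ P : Polynomial (MvPolynomial (Fin N) 𝕜), ∀ t, F t = P.eval (C t)

lemma PF.const (G : MvPolynomial (Fin N) 𝕜) : PF fun _ => G :=
  ⟨Polynomial.C G, fun t => by rw [Polynomial.eval_C]⟩

lemma PF.id : PF fun t : 𝕜 => (C t : MvPolynomial (Fin N) 𝕜) :=
  ⟨Polynomial.X, fun t => by rw [Polynomial.eval_X]⟩

lemma PF.add {F G : 𝕜 → MvPolynomial (Fin N) 𝕜} (hF : PF F) (hG : PF G) :
    PF fun t => F t + G t := by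
  obtain ⟨P, hP⟩ := hF
  obtain ⟨Q, hQ⟩ := hG
  exact ⟨P + Q, fun t => by simp only [Polynomial.eval_add, hP, hQ]⟩

lemma PF.mul {F G : 𝕜 → MvPolynomial (Fin N) 𝕜} (hF : PF F) (hG : PF G) :
    PF fun t => F t * G t := by
  obtain ⟨P, hP⟩ := hF
  obtain ⟨Q, hQ⟩ := hG
  exact ⟨P * Q, fun t => by simp only [Polynomial.eval_mul, hP, hQ]⟩

lemma PF.neg {F : 𝕜 → MvPolynomial (Fin N) 𝕜} (hF : PF F) : PF fun t => - F t := by
  obtain ⟨P, hP⟩ := hF
  exact ⟨-P, fun t => by simp only [Polynomial.eval_neg, hP]⟩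

lemma PF.sub {F G : 𝕜 → MvPolynomial (Fin N) 𝕜} (hF : PF F) (hG : PF G) :
    PF fun t => F t - G t := by
  obtain ⟨P, hP⟩ := hF
  obtain ⟨Q, hQ⟩ := hG
  exact ⟨P - Q, fun t => by simp only [Polynomial.eval_sub, hP, hQ]⟩

lemma PF.pow {F : 𝕜 → MvPolynomial (Fin N) 𝕜} (hF : PF F) (n : ℕ) : PF fun t => F t ^ n := by
  obtain ⟨P, hP⟩ := hF
  exact ⟨P ^ n, fun t => by simp only [Polynomial.eval_pow, hP]⟩

lemma PF.sum {ι : Type*} (s : Finset ι) {F : ι → 𝕜 → MvPolynomial (Fin N) 𝕜}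
    (hF : ∀ i ∈ s, PF (F i)) : PF fun t => ∑ i ∈ s, F i t := by
  classical
  induction s using Finset.induction_on with
  | empty => simpa using PF.const 0
  | insert i s hi ih =>
    have h1 : (fun t => ∑ j ∈ insert i s, F j t) = fun t => F i t + ∑ j ∈ s, F j t := by
      funext t
      rw [sum_insert hi]
    rw [h1]
    exact (hF i (mem_insert_self _ _)).add (ih fun j hj => hF j (mem_insert_of_mem hj))

lemma lin_add (v w : Fin N → 𝕜) : lin (v + w) = lin v + lin w := by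
  simp only [lin, Pi.add_apply, C_add, add_mul, sum_add_distrib]

lemma lin_smul (c : 𝕜) (v : Fin N → 𝕜) : lin (c • v) = C c * lin v := by
  simp only [lin, Pi.smul_apply, smul_eq_mul, C_mul, mul_sum, mul_assoc]

lemma lin_sub (v w : Fin N → 𝕜) : lin (v - w) = lin v - lin w := by
  simp only [lin, Pi.sub_apply, C_sub, sub_mul, sum_sub_distrib]

lemma eval_lin (u v : Fin N → 𝕜) : eval u (lin v) = ∑ i, v i * u i := by
  simp [lin]

/-- line between two vectors -/
def seg (v w : Fin N → 𝕜) (t : 𝕜) : Fin N → 𝕜 := v + t • (w - v)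

lemma seg_zero (v w : Fin N → 𝕜) : seg v w 0 = v := by simp [seg]

lemma seg_one (v w : Fin N → 𝕜) : seg v w 1 = w := by simp [seg]

lemma seg_apply (v w : Fin N → 𝕜) (t : 𝕜) (i : Fin N) : seg v w t i = v i + t * (w i - v i) := by
  simp [seg]

lemma PF.seg_lin (v w : Fin N → 𝕜) : PF fun t => lin (seg v w t) := by
  have h1 : (fun t => lin (seg v w t)) = fun t => lin v + C t * lin (w - v) := by
    funext t
    rw [seg, lin_add, lin_smul]
  rw [h1]
  exact (PF.const _).add (PF.id.mul (PF.const _))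

lemma PF.seg_C (v w : Fin N → 𝕜) (i : Fin N) :
    PF fun t => (C (seg v w t i) : MvPolynomial (Fin N) 𝕜) := by
  have h1 : (fun t => (C (seg v w t i) : MvPolynomial (Fin N) 𝕜)) =
      fun t => C (v i) + C t * C (w i - v i) := by
    funext t
    rw [seg_apply, C_add, C_mul]
  rw [h1]
  exact (PF.const _).add (PF.id.mul (PF.const _))

/-- `F` is the Chow form of the cycle `s` -/
def Rep (m d : ℕ) (F : MvPolynomial (Fin N) 𝕜) (s : Multiset (Fin N → 𝕜)) : Prop :=
  s.card = d ∧ (∀ v ∈ s, OnX m v) ∧ ∃ c : 𝕜, c ≠ 0 ∧ F = C c * (s.map lin).prod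

/-- the functions on vectors that come from additive functions on cycles modulo
rational equivalence -/
structure Good (m : ℕ) (f : (Fin N → 𝕜) → 𝕜) : Prop where
  smul : ∀ (c : 𝕜) (v : Fin N → 𝕜), c ≠ 0 → OnX m v → f (c • v) = f v
  fam : ∀ (d : ℕ) (F : 𝕜 → MvPolynomial (Fin N) 𝕜), PF F → (∀ t, ∃ s, Rep m d (F t) s) →
    ∀ s s' : Multiset (Fin N → 𝕜), Rep m d (F 0) s → Rep m d (F 1) s' →
      (s.map f).sum = (s'.map f).sum

open Classical in
/-- the value of a function on the cycle with given Chow form -/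
noncomputable def val (m : ℕ) (f : (Fin N → 𝕜) → 𝕜) (d : ℕ) (F : MvPolynomial (Fin N) 𝕜) : 𝕜 :=
  if h : ∃ s, Rep m d F s then (h.choose.map f).sum else 0

variable {f : (Fin N → 𝕜) → 𝕜} {d : ℕ}

lemma Good.val_eq (hf : Good m f) {F : MvPolynomial (Fin N) 𝕜} {s : Multiset (Fin N → 𝕜)}
    (h : Rep m d F s) : (s.map f).sum = val m f d F := by
  have hex : ∃ s, Rep m d F s := ⟨s, h⟩
  rw [val, dif_pos hex]
  exact hf.fam d (fun _ => F) (PF.const F) (fun _ => hex) _ _ h hex.choose_spec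

lemma Good.val_move (hf : Good m f) {F : 𝕜 → MvPolynomial (Fin N) 𝕜} (hF : PF F)
    (h : ∀ t, ∃ s, Rep m d (F t) s) : val m f d (F 0) = val m f d (F 1) := by
  obtain ⟨s, hs⟩ := h 0
  obtain ⟨s', hs'⟩ := h 1
  rw [← hf.val_eq hs, ← hf.val_eq hs']
  exact hf.fam d F hF h _ _ hs hs'

lemma Rep.C_mul {F : MvPolynomial (Fin N) 𝕜} {s : Multiset (Fin N → 𝕜)} (h : Rep m d F s) {c : 𝕜}
    (hc : c ≠ 0) : Rep m d (C c * F) s := by
  obtain ⟨h1, h2, c', hc', h3⟩ := h
  refine ⟨h1, h2, c * c', mul_ne_zero hc hc', ?_⟩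
  rw [h3, MvPolynomial.C_mul, mul_assoc]

lemma Good.val_C_mul (hf : Good m f) {F : MvPolynomial (Fin N) 𝕜} (h : ∃ s, Rep m d F s) {c : 𝕜}
    (hc : c ≠ 0) : val m f d (C c * F) = val m f d F := by
  obtain ⟨s, hs⟩ := h
  rw [← hf.val_eq hs, ← hf.val_eq (hs.C_mul hc)]

/-- moving along lines -/
lemma Good.line (hf : Good m f) {K : (Fin N → 𝕜) → MvPolynomial (Fin N) 𝕜}
    (hPF : ∀ v w, PF fun t => K (seg v w t)) {v w : Fin N → 𝕜}
    (hrep : ∀ t, ∃ s, Rep m d (K (seg v w t)) s) : val m f d (K v) = val m f d (K w) := by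
  have h1 := hf.val_move (hPF v w) hrep
  rwa [seg_zero, seg_one] at h1

lemma Good.cone (hf : Good m f) {K : (Fin N → 𝕜) → MvPolynomial (Fin N) 𝕜}
    (hPF : ∀ v w, PF fun t => K (seg v w t)) (S : Finset (Fin N)) {i : Fin N} (hi : i ∈ S)
    (hrep : ∀ v, v ≠ 0 → (∀ j, j ∉ S → v j = 0) → ∃ s, Rep m d (K v) s)
    (hscale : ∀ c : 𝕜, c ≠ 0 → val m f d (K (c • Pi.single i 1)) = val m f d (K (Pi.single i 1)))
    {v : Fin N → 𝕜} (hv : v ≠ 0) (hvS : ∀ j, j ∉ S → v j = 0) :
    val m f d (K v) = val m f d (K (Pi.single i 1)) := by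
  by_cases hex : ∃ t, seg v (Pi.single i 1) t = 0
  · obtain ⟨t, ht⟩ := hex
    have h1 : ∀ j, v j + t * ((Pi.single i 1 : Fin N → 𝕜) j - v j) = 0 := by
      intro j
      rw [← seg_apply, ht]
      rfl
    have ht1 : t ≠ 1 := by
      rintro rfl
      have := h1 i
      simp at this
    have ht0 : t ≠ 0 := by
      rintro rfl
      apply hv
      funext j
      have := h1 j
      simpa using this
    have ht1' : 1 - t ≠ 0 := sub_ne_zero.2 ht1.symm
    have h2 : v = (-t / (1 - t)) • (Pi.single i 1 : Fin N → 𝕜) := by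
      funext j
      have := h1 j
      rw [Pi.smul_apply, smul_eq_mul]
      field_simp
      linear_combination this
    rw [h2]
    exact hscale _ (div_ne_zero (neg_ne_zero.2 ht0) ht1')
  · push Not at hex
    refine hf.line hPF fun t => hrep _ (hex t) fun j hj => ?_
    rw [seg_apply, hvS j hj]
    have : j ≠ i := fun h => hj (h ▸ hi)
    rw [Pi.single_eq_of_ne this]
    ring

section roots

variable [NeZero m]

/-- a primitive root of unity -/
noncomputable def prim (𝕜 : Type*) [Field 𝕜] [IsAlgClosed 𝕜] [CharZero 𝕜] (m : ℕ) [NeZero m] : 𝕜 :=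
  (HasEnoughRootsOfUnity.exists_primitiveRoot 𝕜 m).choose

lemma prim_spec : IsPrimitiveRoot (prim 𝕜 m) m :=
  (HasEnoughRootsOfUnity.exists_primitiveRoot 𝕜 m).choose_spec

/-- the character -/
noncomputable def echar (𝕜 : Type*) [Field 𝕜] [IsAlgClosed 𝕜] [CharZero 𝕜] :
    AddChar (ZMod m) 𝕜 := AddChar.zmodChar m (prim_spec (𝕜 := 𝕜) (m := m)).pow_eq_one

/-- the `m`-th roots of unity -/
noncomputable def e (𝕜 : Type*) [Field 𝕜] [IsAlgClosed 𝕜] [CharZero 𝕜] (k : ZMod m) : 𝕜 :=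
  echar 𝕜 k

lemma e_def (k : ZMod m) : e 𝕜 k = echar 𝕜 k := rfl

lemma e_zero : e 𝕜 (0 : ZMod m) = 1 := by simp [e_def]

lemma e_add (k l : ZMod m) : e 𝕜 (k + l) = e 𝕜 k * e 𝕜 l := by simp [e_def, AddChar.map_add_eq_mul]

lemma e_sum {ι : Type*} (s : Finset ι) (k : ι → ZMod m) : e 𝕜 (∑ i ∈ s, k i) = ∏ i ∈ s, e 𝕜 (k i) := by
  classical
  induction s using Finset.induction_on with
  | empty => simp [e_zero]
  | insert i s hi ih => rw [sum_insert hi, prod_insert hi, e_add, ih]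

lemma e_pow_m (k : ZMod m) : e 𝕜 k ^ m = 1 := by
  rw [e_def, ← AddChar.map_nsmul_eq_pow, nsmul_eq_mul, CharP.cast_eq_zero, zero_mul,
    AddChar.map_zero_eq_one]

lemma e_ne_zero (k : ZMod m) : e 𝕜 k ≠ 0 := by
  intro h
  have := e_pow_m (𝕜 := 𝕜) k
  rw [h, zero_pow (NeZero.ne m)] at this
  exact zero_ne_one this

lemma e_inj : Function.Injective (e 𝕜 : ZMod m → 𝕜) := by
  intro k l hkl
  rw [e_def, e_def, echar, AddChar.zmodChar_apply, AddChar.zmodChar_apply] at hkl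
  have h1 := (prim_spec (𝕜 := 𝕜) (m := m)).pow_inj (ZMod.val_lt k) (ZMod.val_lt l) hkl
  exact ZMod.val_injective m h1

lemma e_neg (k : ZMod m) : e 𝕜 (-k) = (e 𝕜 k)⁻¹ := by
  refine eq_inv_of_mul_eq_one_left ?_
  rw [← e_add, neg_add_cancel, e_zero]

open Classical in
lemma image_e : univ.image (e 𝕜 : ZMod m → 𝕜) = Polynomial.nthRootsFinset m (1 : 𝕜) := by
  refine eq_of_subset_of_card_le ?_ ?_
  · intro z hz
    rw [mem_image] at hz
    obtain ⟨k, _, rfl⟩ := hz
    rw [Polynomial.mem_nthRootsFinset (NeZero.pos m)]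
    exact e_pow_m k
  · rw [card_image_of_injective _ e_inj, card_univ, ZMod.card,
      (prim_spec (𝕜 := 𝕜) (m := m)).card_nthRootsFinset]

open Classical in
lemma exists_e {z : 𝕜} (hz : z ^ m = 1) : ∃ k : ZMod m, e 𝕜 k = z := by
  have h1 : z ∈ univ.image (e 𝕜 : ZMod m → 𝕜) := by
    rw [image_e, Polynomial.mem_nthRootsFinset (NeZero.pos m)]
    exact hz
  rw [mem_image] at h1
  obtain ⟨k, _, hk⟩ := h1
  exact ⟨k, hk⟩

open Classical in
lemma prod_e (x y : 𝕜) : ∏ k : ZMod m, (x - e 𝕜 k * y) = x ^ m - y ^ m := by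
  rw [IsPrimitiveRoot.pow_sub_pow_eq_prod_sub_mul x y (NeZero.pos m)
    (prim_spec (𝕜 := 𝕜) (m := m)), ← image_e, prod_image e_inj.injOn]

lemma prod_e_add (x y : 𝕜) : ∏ k : ZMod m, (e 𝕜 k * x + y) = y ^ m - (-x) ^ m := by
  rw [← prod_e]
  refine prod_congr rfl fun k _ => ?_
  ring

end roots

section TB

variable [NeZero m]

/-- the Fermat form -/
noncomputable def phi (m : ℕ) (v : Fin N → 𝕜) : 𝕜 := ∑ i, v i ^ m

lemma phi_smul (c : 𝕜) (v : Fin N → 𝕜) : phi m (c • v) = c ^ m * phi m v := by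
  simp only [phi, Pi.smul_apply, smul_eq_mul, mul_pow, mul_sum]

lemma phi_add {p q : Fin N → 𝕜} (hd : ∀ i, p i = 0 ∨ q i = 0) :
    phi m (p + q) = phi m p + phi m q := by
  simp only [phi, Pi.add_apply, ← sum_add_distrib]
  refine sum_congr rfl fun i _ => ?_
  rcases hd i with h | h
  · rw [h, zero_add, zero_pow (NeZero.ne m), zero_add]
  · rw [h, add_zero, zero_pow (NeZero.ne m), add_zero]

lemma phi_single (i : Fin N) : phi m (Pi.single i 1 : Fin N → 𝕜) = 1 := by
  rw [phi, sum_eq_single i]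
  · simp
  · intro j _ hj
    rw [Pi.single_eq_of_ne hj, zero_pow (NeZero.ne m)]
  · intro h
    exact absurd (mem_univ i) h

lemma PF.seg_phi (v w : Fin N → 𝕜) :
    PF fun t => (C (phi m (seg v w t)) : MvPolynomial (Fin N) 𝕜) := by
  have h1 : (fun t => (C (phi m (seg v w t)) : MvPolynomial (Fin N) 𝕜)) =
      fun t => ∑ i, C (seg v w t i) ^ m := by
    funext t
    rw [phi, map_sum]
    refine sum_congr rfl fun i _ => ?_
    rw [C_pow]
  rw [h1]
  exact PF.sum _ fun i _ => (PF.seg_C v w i).pow m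

lemma onX_add {p q : Fin N → 𝕜} (hd : ∀ i, p i = 0 ∨ q i = 0) (hq : q ≠ 0)
    (h : phi m p + phi m q = 0) : OnX m (p + q) := by
  constructor
  · intro h0
    apply hq
    funext i
    have h1 := congrFun h0 i
    rcases hd i with h2 | h2
    · rw [Pi.add_apply, h2, zero_add] at h1
      exact h1
    · exact h2
  · have := phi_add (m := m) hd
    rw [h] at this
    exact this

lemma disj_smul {p q : Fin N → 𝕜} (hd : ∀ i, p i = 0 ∨ q i = 0) (c : 𝕜) :
    ∀ i, (c • p) i = 0 ∨ q i = 0 := by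
  intro i
  rcases hd i with h | h
  · left
    rw [Pi.smul_apply, h, smul_zero]
  · exact Or.inr h

lemma rep_orbit {p q : Fin N → 𝕜} (h : ∀ k : ZMod m, OnX m (e 𝕜 k • p + q)) :
    Rep m m (lin q ^ m - (-lin p) ^ m) (univ.val.map fun k : ZMod m => e 𝕜 k • p + q) := by
  refine ⟨?_, ?_, 1, one_ne_zero, ?_⟩
  · rw [Multiset.card_map, card_val, card_univ, ZMod.card]
  · intro v hv
    rw [Multiset.mem_map] at hv
    obtain ⟨k, _, rfl⟩ := hv
    exact h k
  · rw [Multiset.map_map]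
    change _ = C 1 * ∏ k : ZMod m, lin (e 𝕜 k • p + q)
    rw [C_1, one_mul]
    apply MvPolynomial.funext
    intro u
    rw [map_prod]
    simp only [lin_add, lin_smul, map_add, map_mul, eval_C]
    rw [prod_e_add, map_sub, map_pow, map_pow, map_neg]

lemma rep_orbit' {p q : Fin N → 𝕜} (hd : ∀ i, p i = 0 ∨ q i = 0) (hq : q ≠ 0)
    (h : phi m p + phi m q = 0) :
    Rep m m (lin q ^ m - (-lin p) ^ m) (univ.val.map fun k : ZMod m => e 𝕜 k • p + q) := by
  refine rep_orbit fun k => ?_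
  refine onX_add (disj_smul hd _) hq ?_
  rw [phi_smul, e_pow_m, one_mul, h]

/-- the Chow form of the orbits -/
noncomputable def GB (m : ℕ) (p q : Fin N → 𝕜) : MvPolynomial (Fin N) 𝕜 :=
  C (phi m p) * lin q ^ m + C ((-1) ^ m * phi m q) * lin p ^ m

lemma GB_symm (p q : Fin N → 𝕜) : GB m p q = C ((-1) ^ m) * GB m q p := by
  have h1 : ((-1 : 𝕜) ^ m) * (-1) ^ m = 1 := by
    rw [← mul_pow]
    simp
  simp only [GB, mul_add, ← mul_assoc, ← C_mul, h1, one_mul]
  rw [add_comm]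

lemma GB_smul (c : 𝕜) (p q : Fin N → 𝕜) : GB m (c • p) q = C (c ^ m) * GB m p q := by
  simp only [GB, phi_smul, lin_smul, mul_add, mul_pow, C_mul, C_pow]
  ring

lemma GB_rep' {p q : Fin N → 𝕜} (hd : ∀ i, p i = 0 ∨ q i = 0) (hq : q ≠ 0)
    (h : phi m p ≠ 0) : ∃ s, Rep m m (GB m p q) s := by
  obtain ⟨l, hl⟩ := IsAlgClosed.exists_pow_nat_eq (-phi m q / phi m p) (NeZero.pos m)
  have h1 : phi m (l • p) + phi m q = 0 := by
    rw [phi_smul, hl]
    field_simp
    ring
  have h2 := (rep_orbit' (disj_smul hd l) hq h1).C_mul h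
  have hG : GB m p q = C (phi m p) * (lin q ^ m - (-lin (l • p)) ^ m) := by
    apply MvPolynomial.funext
    intro u
    simp only [GB, lin_smul, map_add, map_mul, map_sub, map_neg, map_pow, eval_C]
    rw [neg_pow (l * _), mul_pow, hl]
    field_simp
    ring
  rw [hG]
  exact ⟨_, h2⟩

lemma GB_rep {p q : Fin N → 𝕜} (hd : ∀ i, p i = 0 ∨ q i = 0) (hp : p ≠ 0) (hq : q ≠ 0)
    (h : phi m p ≠ 0 ∨ phi m q ≠ 0) : ∃ s, Rep m m (GB m p q) s := by
  rcases h with h | h
  · exact GB_rep' hd hq h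
  · obtain ⟨s, hs⟩ := GB_rep' (fun i => (hd i).symm) hp h
    refine ⟨s, ?_⟩
    rw [GB_symm]
    exact hs.C_mul (pow_ne_zero _ (by norm_num))

lemma Good.val_GB_symm (hf : Good m f) {p q : Fin N → 𝕜} (hd : ∀ i, p i = 0 ∨ q i = 0)
    (hp : p ≠ 0) (hq : q ≠ 0) (h : phi m p ≠ 0 ∨ phi m q ≠ 0) :
    val m f m (GB m p q) = val m f m (GB m q p) := by
  rw [GB_symm]
  exact hf.val_C_mul (GB_rep (fun i => (hd i).symm) hq hp h.symm) (pow_ne_zero _ (by norm_num))

lemma Good.GB_step (hf : Good m f) (S : Finset (Fin N)) {i : Fin N} (hi : i ∈ S)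
    {p q : Fin N → 𝕜} (hp : p ≠ 0) (hpS : ∀ j, j ∉ S → p j = 0) (hq : q ≠ 0)
    (hqS : ∀ j ∈ S, q j = 0) (h : phi m q ≠ 0) :
    val m f m (GB m p q) = val m f m (GB m (Pi.single i 1) q) := by
  have hdis : ∀ v : Fin N → 𝕜, (∀ j, j ∉ S → v j = 0) → ∀ j, v j = 0 ∨ q j = 0 := by
    intro v hv j
    by_cases hj : j ∈ S
    · exact Or.inr (hqS j hj)
    · exact Or.inl (hv j hj)
  have hsS : ∀ j, j ∉ S → (Pi.single i 1 : Fin N → 𝕜) j = 0 := by
    intro j hj
    refine Pi.single_eq_of_ne ?_ 1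
    rintro rfl
    exact hj hi
  refine hf.cone (K := fun v => GB m v q) ?_ S hi ?_ ?_ hp hpS
  · intro v w
    exact ((PF.seg_phi v w).mul (PF.const _)).add ((PF.const _).mul ((PF.seg_lin v w).pow m))
  · intro v hv hvS
    exact GB_rep (hdis v hvS) hv hq (Or.inr h)
  · intro c hc
    rw [GB_smul]
    refine hf.val_C_mul ?_ (pow_ne_zero _ hc)
    exact GB_rep (hdis _ hsS) (by simp) hq (Or.inr h)

/-- multiplication of the coordinates in `B` by a root of unity -/
noncomputable def tB (B : Finset (Fin N)) (k : ZMod m) (v : Fin N → 𝕜) : Fin N → 𝕜 :=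
  fun i => if i ∈ B then e 𝕜 k * v i else v i

/-- The sum of the values over an orbit is constant. -/
theorem Good.TB (hf : Good m f) {B : Finset (Fin N)} (hB : B.Nonempty) (hB' : B ≠ univ) :
    ∃ V : 𝕜, ∀ v, OnX m v → ∑ k : ZMod m, f (tB B k v) = V := by
  obtain ⟨i, hi⟩ := hB
  obtain ⟨j, hj⟩ : ∃ j, j ∉ B := by
    by_contra hcon
    push Not at hcon
    exact hB' (eq_univ_iff_forall.2 hcon)
  set ei : Fin N → 𝕜 := Pi.single i 1 with hei
  set ej : Fin N → 𝕜 := Pi.single j 1 with hej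
  have hei0 : ei ≠ 0 := by simp [hei]
  have hej0 : ej ≠ 0 := by simp [hej]
  have heiB : ∀ l, l ∉ B → ei l = 0 := by
    intro l hl
    refine Pi.single_eq_of_ne ?_ 1
    rintro rfl
    exact hl hi
  have hejB : ∀ l ∈ B, ej l = 0 := by
    intro l hl
    refine Pi.single_eq_of_ne ?_ 1
    rintro rfl
    exact hj hl
  have hpi : phi m ei = 1 := phi_single i
  have hpj : phi m ej = 1 := phi_single j
  -- first and second step
  have hdis : ∀ p q : Fin N → 𝕜, (∀ l, l ∉ B → p l = 0) → (∀ l ∈ B, q l = 0) →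
      ∀ l, p l = 0 ∨ q l = 0 := by
    intro p q hp hq l
    by_cases hl : l ∈ B
    · exact Or.inr (hq l hl)
    · exact Or.inl (hp l hl)
  have hs1 : ∀ p q : Fin N → 𝕜, p ≠ 0 → (∀ l, l ∉ B → p l = 0) → q ≠ 0 → (∀ l ∈ B, q l = 0) →
      phi m q ≠ 0 → val m f m (GB m p q) = val m f m (GB m ei q) :=
    fun p q hp hpB hq hqB h => hf.GB_step B hi hp hpB hq hqB h
  have hs2 : ∀ p q : Fin N → 𝕜, p ≠ 0 → (∀ l, l ∉ B → p l = 0) → q ≠ 0 → (∀ l ∈ B, q l = 0) →
      phi m p ≠ 0 → val m f m (GB m p q) = val m f m (GB m p ej) := by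
    intro p q hp hpB hq hqB h
    rw [hf.val_GB_symm (hdis p q hpB hqB) hp hq (Or.inl h),
      hf.val_GB_symm (hdis p ej hpB hejB) hp hej0 (Or.inl h)]
    refine hf.GB_step Bᶜ (mem_compl.2 hj) hq ?_ hp ?_ h
    · intro l hl
      exact hqB l (by simpa using hl)
    · intro l hl
      exact hpB l (mem_compl.1 hl)
  have hall : ∀ p q : Fin N → 𝕜, p ≠ 0 → (∀ l, l ∉ B → p l = 0) → q ≠ 0 → (∀ l ∈ B, q l = 0) →
      (phi m p ≠ 0 ∨ phi m q ≠ 0) → val m f m (GB m p q) = val m f m (GB m ei ej) := by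
    intro p q hp hpB hq hqB h
    rcases h with h | h
    · rw [hs2 p q hp hpB hq hqB h, hs1 p ej hp hpB hej0 hejB (by rw [hpj]; exact one_ne_zero)]
    · rw [hs1 p q hp hpB hq hqB h, hs2 ei q hei0 heiB hq hqB (by rw [hpi]; exact one_ne_zero)]
  -- points supported on one side
  have hone : ∀ q : Fin N → 𝕜, OnX m q → ((∀ l ∈ B, q l = 0) ∨ ∀ l, l ∉ B → q l = 0) →
      (m : 𝕜) * f q = val m f m (GB m ei ej) := by
    intro q hq hqB
    have hrep : ∀ c : 𝕜, c ≠ 0 → Rep m m (C c * lin q ^ m) (Multiset.replicate m q) := by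
      intro c hc
      refine ⟨Multiset.card_replicate _ _, ?_, c, hc, ?_⟩
      · intro v hv
        rw [Multiset.eq_of_mem_replicate hv]
        exact hq
      · rw [Multiset.map_replicate, Multiset.prod_replicate]
    have hq0 : phi m q = 0 := hq.2
    have hsum : ((Multiset.replicate m q).map f).sum = (m : 𝕜) * f q := by
      rw [Multiset.map_replicate, Multiset.sum_replicate, nsmul_eq_mul]
    rw [← hsum]
    rcases hqB with hqB | hqB
    · rw [← hall ei q hei0 heiB hq.1 hqB (Or.inl (by rw [hpi]; exact one_ne_zero))]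
      refine hf.val_eq ?_
      have h1 := hrep 1 one_ne_zero
      rw [GB, hpi, hq0, mul_zero, C_0, zero_mul, add_zero]
      exact h1
    · rw [← hall q ej hq.1 hqB hej0 hejB (Or.inr (by rw [hpj]; exact one_ne_zero))]
      refine hf.val_eq ?_
      rw [GB, hpj, hq0, mul_one, C_0, zero_mul, zero_add]
      exact hrep _ (pow_ne_zero _ (by norm_num))
  refine ⟨val m f m (GB m ei ej), fun v hv => ?_⟩
  set p : Fin N → 𝕜 := fun l => if l ∈ B then v l else 0 with hp
  set q : Fin N → 𝕜 := fun l => if l ∈ B then 0 else v l with hq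
  have hpB : ∀ l, l ∉ B → p l = 0 := fun l hl => if_neg hl
  have hqB : ∀ l ∈ B, q l = 0 := fun l hl => if_pos hl
  have htB : ∀ k : ZMod m, tB B k v = e 𝕜 k • p + q := by
    intro k
    funext l
    by_cases hl : l ∈ B
    · simp [tB, hp, hq, hl]
    · simp [tB, hp, hq, hl]
  have hvpq : v = p + q := by
    funext l
    by_cases hl : l ∈ B
    · simp [hp, hq, hl]
    · simp [hp, hq, hl]
  have hphi : phi m p + phi m q = 0 := by
    rw [← phi_add (hdis p q hpB hqB), ← hvpq]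
    exact hv.2
  simp only [htB]
  by_cases hp0 : p = 0
  · -- `p = 0`
    have hvq : v = q := by rw [hvpq, hp0, zero_add]
    have h1 : ∀ k : ZMod m, f (e 𝕜 k • p + q) = f v := by
      intro k
      rw [hp0, smul_zero, zero_add, ← hvq]
    simp only [h1, sum_const, card_univ, ZMod.card, nsmul_eq_mul]
    exact hone v hv (Or.inl (by rw [hvq]; exact hqB))
  by_cases hq0 : q = 0
  · have hvp : v = p := by rw [hvpq, hq0, add_zero]
    have h1 : ∀ k : ZMod m, f (e 𝕜 k • p + q) = f v := by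
      intro k
      rw [hq0, add_zero, ← hvp]
      exact hf.smul _ _ (e_ne_zero k) hv
    simp only [h1, sum_const, card_univ, ZMod.card, nsmul_eq_mul]
    exact hone v hv (Or.inr (by rw [hvp]; exact hpB))
  have hrep := rep_orbit' (hdis p q hpB hqB) hq0 hphi
  have hsum : ∑ k : ZMod m, f (e 𝕜 k • p + q) =
      ((univ.val.map fun k : ZMod m => e 𝕜 k • p + q).map f).sum := by
    rw [Multiset.map_map]
    rfl
  rw [hsum]
  by_cases hphp : phi m p = 0
  · -- family
    have hphq : phi m q = 0 := by rw [hphp, zero_add] at hphi; exact hphi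
    have hqX : OnX m q := ⟨hq0, hphq⟩
    rw [← hone q hqX (Or.inl hqB)]
    have hfam : ∀ t : 𝕜, Rep m m (lin q ^ m - (-(C t * lin p)) ^ m)
        (univ.val.map fun k : ZMod m => e 𝕜 k • (t • p) + q) := by
      intro t
      have h2 := rep_orbit' (m := m) (disj_smul (hdis p q hpB hqB) t) hq0
        (by rw [phi_smul, hphp, mul_zero, zero_add, hphq])
      rw [lin_smul] at h2
      exact h2
    have hPF : PF fun t => lin q ^ m - (-(C t * lin p)) ^ m :=
      (PF.const _).sub (((PF.id.mul (PF.const _)).neg).pow m)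
    have h3 := hf.val_move hPF fun t => ⟨_, hfam t⟩
    rw [← hf.val_eq (hfam 0), ← hf.val_eq (hfam 1)] at h3
    simp only [one_smul, zero_smul, smul_zero, zero_add] at h3
    rw [← h3, Multiset.map_map]
    simp
  · rw [← hall p q hp0 hpB hq0 hqB (Or.inl hphp)]
    refine hf.val_eq ?_
    have h2 := hrep.C_mul hphp
    have h3 : phi m q = - phi m p := by linear_combination hphi
    have hG : GB m p q = C (phi m p) * (lin q ^ m - (-lin p) ^ m) := by
      apply MvPolynomial.funext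
      intro u
      simp only [GB, map_add, map_mul, map_sub, map_neg, map_pow, eval_C, h3]
      rw [neg_pow (eval u (lin p))]
      ring
    rw [hG]
    exact h2

end TB

end Pool.Agent.T2H37.FK
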