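import Pool.Agent.T2H37.FK.Geo

/-!
# The orbits of the dihedral groups
-/

set_option autoImplicit false
set_option linter.unusedSectionVars false
set_option linter.unusedSimpArgs false

namespace Pool.Agent.T2H37.FK

open MvPolynomial Finset

variable {𝕜 : Type*} [Field 𝕜] [IsAlgClosed 𝕜] [CharZero 𝕜]

variable {N m : ℕ}

/-- power sums of two elements, in terms of their sum and product -/
def psum {R : Type*} [CommRing R] (c d : R) : ℕ → R
  | 0 => 2
  | 1 => c
  | (k + 2) => c * psum c d (k + 1) - d * psum c d k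

lemma psum_eq {R : Type*} [CommRing R] (x y : R) : ∀ k, psum (x + y) (x * y) k = x ^ k + y ^ k
  | 0 => by simp only [psum, pow_zero]; norm_num
  | 1 => by simp only [psum, pow_one]
  | (k + 2) => by
    rw [psum, psum_eq x y (k + 1), psum_eq x y k]
    ring

lemma psum_map {R S : Type*} [CommRing R] [CommRing S] (g : R →+* S) (c d : R) :
    ∀ k, g (psum c d k) = psum (g c) (g d) k
  | 0 => by simp only [psum]; exact map_ofNat g 2
  | 1 => by simp only [psum]
  | (k + 2) => by
    rw [psum, psum, map_sub, map_mul, map_mul, psum_map g c d (k + 1), psum_map g c d k]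

lemma PF.psum {F G : 𝕜 → MvPolynomial (Fin N) 𝕜} (hF : PF F) (hG : PF G) :
    ∀ k, PF fun t => psum (F t) (G t) k
  | 0 => by
    simp only [FK.psum]
    exact PF.const 2
  | 1 => by
    simp only [FK.psum]
    exact hF
  | (k + 2) => by
    simp only [FK.psum]
    exact (hF.mul (PF.psum hF hG (k + 1))).sub (hG.mul (PF.psum hF hG k))

lemma exists_sum_mul (s p : 𝕜) : ∃ a b : 𝕜, a + b = s ∧ a * b = p := by
  obtain ⟨r, hr⟩ := IsAlgClosed.exists_pow_nat_eq (s ^ 2 - 4 * p) (n := 2) (by norm_num)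
  refine ⟨(s + r) / 2, (s - r) / 2, by ring, ?_⟩
  have : (s + r) / 2 * ((s - r) / 2) = (s ^ 2 - r ^ 2) / 4 := by ring
  rw [this, hr]
  ring

section

variable [NeZero m]

lemma prod_dihedral (A B c : 𝕜) :
    ∏ k : ZMod m, (e 𝕜 k * A + e 𝕜 (-k) * B + c) = (-1) ^ m * (psum (-c) (A * B) m - A ^ m - B ^ m) := by
  obtain ⟨x, y, hxy, hxy'⟩ := exists_sum_mul (-c) (A * B)
  have hps : psum (-c) (A * B) m = x ^ m + y ^ m := by
    rw [← hxy, ← hxy', psum_eq]
  rw [hps]
  have hm : (-1 : 𝕜) ^ m * (-1) ^ m = 1 := by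
    rw [← mul_pow]
    simp
  by_cases hA : A = 0
  · subst hA
    have h1 : ∏ k : ZMod m, (e 𝕜 k * 0 + e 𝕜 (-k) * B + c) = ∏ k : ZMod m, (e 𝕜 k * B + c) := by
      refine Fintype.prod_equiv (Equiv.neg (ZMod m)) _ _ fun k => ?_
      simp
    rw [h1, prod_e_add, zero_pow (NeZero.ne m)]
    rw [zero_mul] at hxy'
    have hc : c = -(x + y) := by rw [hxy]; ring
    rcases mul_eq_zero.1 hxy' with h | h
    · subst h
      rw [zero_pow (NeZero.ne m), hc, zero_add, zero_add, neg_pow y, neg_pow B]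
      ring
    · subst h
      rw [zero_pow (NeZero.ne m), hc, add_zero, add_zero, neg_pow x, neg_pow B]
      ring
  · have h1 : ∏ k : ZMod m, (e 𝕜 k * A + 0) = 0 ^ m - (-A) ^ m := prod_e_add A 0
    have h2 : ∏ k : ZMod m, (e 𝕜 k * A + (-x)) = (-x) ^ m - (-A) ^ m := prod_e_add A (-x)
    have h3 : ∏ k : ZMod m, (e 𝕜 k * A + (-y)) = (-y) ^ m - (-A) ^ m := prod_e_add A (-y)
    have h4 : (∏ k : ZMod m, (e 𝕜 k * A + 0)) * ∏ k : ZMod m, (e 𝕜 k * A + e 𝕜 (-k) * B + c) =
        (∏ k : ZMod m, (e 𝕜 k * A + (-x))) * ∏ k : ZMod m, (e 𝕜 k * A + (-y)) := by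
      rw [← prod_mul_distrib, ← prod_mul_distrib]
      refine prod_congr rfl fun k _ => ?_
      have h5 : e 𝕜 k * e 𝕜 (-k) = 1 := by rw [← e_add, add_neg_cancel, e_zero]
      have h6 : c = -(x + y) := by rw [hxy]; ring
      rw [h6]
      linear_combination (A * B) * h5 - hxy'
    rw [h1, h2, h3, zero_pow (NeZero.ne m)] at h4
    have hA' : (0 - (-A) ^ m) ≠ 0 := by
      rw [zero_sub]
      exact neg_ne_zero.2 (pow_ne_zero _ (neg_ne_zero.2 hA))
    refine mul_left_cancel₀ hA' ?_
    rw [h4]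
    have h7 : x ^ m * y ^ m = A ^ m * B ^ m := by
      rw [← mul_pow, ← mul_pow, hxy']
    rw [neg_pow x, neg_pow y, neg_pow A]
    linear_combination ((-1) ^ m * (-1) ^ m) * h7

/-- the action of the cyclic group on the coordinates `i`, `j` -/
noncomputable def tij (i j : Fin N) (k : ZMod m) (v : Fin N → 𝕜) : Fin N → 𝕜 :=
  fun l => if l = i then e 𝕜 k * v l else if l = j then e 𝕜 (-k) * v l else v l

/-- exchange of two coordinates -/
def sw (i j : Fin N) (v : Fin N → 𝕜) : Fin N → 𝕜 := fun l => v (Equiv.swap i j l)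

lemma sum_split {M : Type*} [AddCommMonoid M] {i j : Fin N} (hij : i ≠ j) (g : Fin N → M) :
    ∑ l, g l = g i + (g j + ∑ l ∈ (univ.erase i).erase j, g l) := by
  rw [add_sum_erase _ _ (mem_erase.2 ⟨hij.symm, mem_univ j⟩), add_sum_erase _ _ (mem_univ i)]

/-- the linear form of the remaining coordinates -/
noncomputable def cc (i j : Fin N) (z : Fin N → 𝕜) : MvPolynomial (Fin N) 𝕜 :=
  ∑ l ∈ (univ.erase i).erase j, C (z l) * X l

/-- minus the form in the remaining coordinates -/
noncomputable def ss (i j : Fin N) (m : ℕ) (z : Fin N → 𝕜) : 𝕜 :=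
  -∑ l ∈ (univ.erase i).erase j, z l ^ m

/-- the power sum -/
noncomputable def DD (i j : Fin N) (m : ℕ) (z : Fin N → 𝕜) : MvPolynomial (Fin N) 𝕜 :=
  psum (-cc i j z) (C (z i) * (X i * X j)) m

/-- the Chow form of the dihedral orbit -/
noncomputable def KK (i j : Fin N) (m : ℕ) (z : Fin N → 𝕜) : MvPolynomial (Fin N) 𝕜 :=
  C (z i ^ m) * ((X i ^ m) ^ 2 + (X j ^ m) ^ 2) +
    C (ss i j m z ^ 2 - 2 * z i ^ m) * (X i ^ m * X j ^ m) -
    C (ss i j m z) * (DD i j m z * (X i ^ m + X j ^ m)) + DD i j m z ^ 2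

lemma PF.seg_KK (i j : Fin N) (v w : Fin N → 𝕜) : PF fun t => KK i j m (seg v w t) := by
  have h1 : PF fun t => cc i j (seg v w t) := by
    simp only [cc]
    exact PF.sum _ fun l _ => (PF.seg_C v w l).mul (PF.const _)
  have h2 : PF fun t => (C (ss i j m (seg v w t)) : MvPolynomial (Fin N) 𝕜) := by
    simp only [ss, map_neg, map_sum, map_pow]
    exact (PF.sum _ fun l _ => (PF.seg_C v w l).pow m).neg
  have h3 : PF fun t => DD i j m (seg v w t) := by
    simp only [DD]
    exact PF.psum h1.neg ((PF.seg_C v w i).mul (PF.const _)) m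
  simp only [KK, map_sub, map_mul, map_pow]
  exact ((((PF.seg_C v w i).pow m).mul (PF.const _)).add
    (((h2.pow 2).sub ((PF.const _).mul ((PF.seg_C v w i).pow m))).mul (PF.const _))).sub
    (h2.mul (h3.mul (PF.const _))) |>.add (h3.pow 2)

/-- the dihedral orbit -/
noncomputable def orb (i j : Fin N) (m : ℕ) [NeZero m] (v : Fin N → 𝕜) : Multiset (Fin N → 𝕜) :=
  (univ.val.map fun k : ZMod m => tij i j k v) + (univ.val.map fun k : ZMod m => tij i j k (sw i j v))

lemma onX_tij (i j : Fin N) (k : ZMod m) {v : Fin N → 𝕜} (hv : OnX m v) :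
    OnX m (tij i j k v) := by
  constructor
  · intro h0
    apply hv.1
    funext l
    have h1 := congrFun h0 l
    simp only [tij, Pi.zero_apply] at h1
    split_ifs at h1
    · exact (mul_eq_zero.1 h1).resolve_left (e_ne_zero _)
    · exact (mul_eq_zero.1 h1).resolve_left (e_ne_zero _)
    · exact h1
  · rw [← hv.2]
    refine sum_congr rfl fun l _ => ?_
    simp only [tij]
    split_ifs
    · rw [mul_pow, e_pow_m, one_mul]
    · rw [mul_pow, e_pow_m, one_mul]
    · rfl

lemma onX_perm (σ : Equiv.Perm (Fin N)) {v : Fin N → 𝕜} (hv : OnX m v) :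
    OnX m fun l => v (σ l) := by
  constructor
  · intro h0
    apply hv.1
    funext l
    have h1 := congrFun h0 (σ.symm l)
    simpa using h1
  · have h1 := hv.2
    rw [← Equiv.sum_comp σ] at h1
    exact h1

lemma eval_tij {i j : Fin N} (hij : i ≠ j) (k : ZMod m) (v u : Fin N → 𝕜) :
    eval u (lin (tij i j k v)) = e 𝕜 k * (v i * u i) + e 𝕜 (-k) * (v j * u j) +
      ∑ l ∈ (univ.erase i).erase j, v l * u l := by
  rw [eval_lin, sum_split hij]
  have h1 : ∑ l ∈ (univ.erase i).erase j, tij i j k v l * u l =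
      ∑ l ∈ (univ.erase i).erase j, v l * u l := by
    refine sum_congr rfl fun l hl => ?_
    rw [mem_erase, mem_erase] at hl
    simp only [tij, if_neg hl.1, if_neg hl.2.1]
  rw [h1]
  simp only [tij, if_pos, if_neg hij.symm, if_true]
  ring

lemma rep_orb {i j : Fin N} (hij : i ≠ j) {v z : Fin N → 𝕜} (hv : OnX m v)
    (hzi : z i = v i * v j) (hz : ∀ l, l ≠ i → l ≠ j → z l = v l) :
    Rep m (2 * m) (KK i j m z) (orb i j m v) := by
  refine ⟨?_, ?_, 1, one_ne_zero, ?_⟩
  · rw [orb, Multiset.card_add, Multiset.card_map, Multiset.card_map, card_val, card_univ,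
      ZMod.card]
    ring
  · intro w hw
    rw [orb, Multiset.mem_add, Multiset.mem_map, Multiset.mem_map] at hw
    rcases hw with ⟨k, _, rfl⟩ | ⟨k, _, rfl⟩
    · exact onX_tij i j k hv
    · exact onX_tij i j k (onX_perm (Equiv.swap i j) hv)
  · rw [orb, Multiset.map_add, Multiset.prod_add, Multiset.map_map, Multiset.map_map]
    change _ = C 1 * ((∏ k : ZMod m, lin (tij i j k v)) * ∏ k : ZMod m, lin (tij i j k (sw i j v)))
    rw [C_1, one_mul]
    apply MvPolynomial.funext
    intro u
    rw [map_mul, map_prod, map_prod]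
    simp only [eval_tij hij]
    rw [prod_dihedral, prod_dihedral]
    have hswi : sw i j v i = v j := by simp [sw]
    have hswj : sw i j v j = v i := by simp [sw]
    have hsw : ∑ l ∈ (univ.erase i).erase j, sw i j v l * u l =
        ∑ l ∈ (univ.erase i).erase j, v l * u l := by
      refine sum_congr rfl fun l hl => ?_
      rw [mem_erase, mem_erase] at hl
      rw [sw, Equiv.swap_apply_of_ne_of_ne hl.2.1 hl.1]
    rw [hswi, hswj, hsw]
    have hcc : eval u (cc i j z) = ∑ l ∈ (univ.erase i).erase j, v l * u l := by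
      rw [cc, map_sum]
      refine sum_congr rfl fun l hl => ?_
      rw [mem_erase, mem_erase] at hl
      rw [map_mul, eval_C, eval_X, hz l hl.2.1 hl.1]
    have hss : ss i j m z = v i ^ m + v j ^ m := by
      have h1 := hv.2
      rw [sum_split hij] at h1
      have h2 : ∑ l ∈ (univ.erase i).erase j, z l ^ m =
          ∑ l ∈ (univ.erase i).erase j, v l ^ m := by
        refine sum_congr rfl fun l hl => ?_
        rw [mem_erase, mem_erase] at hl
        rw [hz l hl.2.1 hl.1]
      rw [ss, h2]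
      linear_combination -h1
    simp only [KK, map_add, map_sub, map_mul, map_pow, eval_C, eval_X]
    have hDD : eval u (DD i j m z) = psum (-∑ l ∈ (univ.erase i).erase j, v l * u l)
        (v i * u i * (v j * u j)) m := by
      rw [DD, psum_map, map_neg, hcc, map_mul, map_mul, eval_C, eval_X, eval_X, hzi]
      congr 1
      ring
    rw [hDD, hss, hzi]
    have h3 : v j * u i * (v i * u j) = v i * u i * (v j * u j) := by ring
    rw [h3]
    set D := psum (-∑ l ∈ (univ.erase i).erase j, v l * u l) (v i * u i * (v j * u j)) m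
    have hm : (-1 : 𝕜) ^ m * (-1) ^ m = 1 := by
      rw [← mul_pow]
      simp
    simp only [mul_pow]
    linear_combination (-((D - v i ^ m * u i ^ m - v j ^ m * u j ^ m) *
      (D - v j ^ m * u i ^ m - v i ^ m * u j ^ m))) * hm

lemma exists_rep_KK {i j : Fin N} (hij : i ≠ j) {z : Fin N → 𝕜} (hz : ∃ l, l ≠ j ∧ z l ≠ 0) :
    ∃ s, Rep m (2 * m) (KK i j m z) s := by
  have hab : ∃ a b : 𝕜, a ^ m + b ^ m = ss i j m z ∧ a * b = z i := by
    obtain ⟨x, y, hxy, hxy'⟩ := exists_sum_mul (ss i j m z) (z i ^ m)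
    by_cases hx : x = 0
    · have hzi : z i = 0 := by
        rw [hx, zero_mul] at hxy'
        exact eq_zero_of_pow_eq_zero hxy'.symm
      obtain ⟨b, hb⟩ := IsAlgClosed.exists_pow_nat_eq y (NeZero.pos m)
      refine ⟨0, b, ?_, ?_⟩
      · rw [zero_pow (NeZero.ne m), hb, ← hxy, hx]
      · rw [zero_mul, hzi]
    · obtain ⟨a, ha⟩ := IsAlgClosed.exists_pow_nat_eq x (NeZero.pos m)
      have ha0 : a ≠ 0 := by
        rintro rfl
        rw [zero_pow (NeZero.ne m)] at ha
        exact hx ha.symm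
      refine ⟨a, z i / a, ?_, ?_⟩
      · rw [div_pow, ha, ← hxy', mul_div_cancel_left₀ _ hx, hxy]
      · field_simp
  obtain ⟨a, b, h1, h2⟩ := hab
  set v : Fin N → 𝕜 := fun l => if l = i then a else if l = j then b else z l with hv
  have hvi : v i = a := by simp [hv]
  have hvj : v j = b := by simp [hv, hij.symm]
  have hvl : ∀ l, l ≠ i → l ≠ j → v l = z l := by
    intro l hl hl'
    simp [hv, hl, hl']
  refine ⟨orb i j m v, rep_orb hij ⟨?_, ?_⟩ ?_ ?_⟩
  · intro h0
    obtain ⟨l, hlj, hl⟩ := hz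
    apply hl
    by_cases hli : l = i
    · rw [hli, ← h2, ← hvi, h0, Pi.zero_apply, zero_mul]
    · rw [← hvl l hli hlj, h0, Pi.zero_apply]
  · rw [sum_split hij, hvi, hvj]
    have h3 : ∑ l ∈ (univ.erase i).erase j, v l ^ m = - ss i j m z := by
      rw [ss, neg_neg]
      refine sum_congr rfl fun l hl => ?_
      rw [mem_erase, mem_erase] at hl
      rw [hvl l hl.2.1 hl.1]
    rw [h3]
    linear_combination h1
  · rw [hvi, hvj, h2]
  · intro l hl hl'
    exact (hvl l hl hl').symm

/-- The sum of the values over a dihedral orbit is constant. -/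
theorem Good.Tij {f : (Fin N → 𝕜) → 𝕜} (hf : Good m f) (hN : 3 ≤ N) {i j : Fin N} (hij : i ≠ j) :
    ∃ V : 𝕜, ∀ v, OnX m v →
      ∑ k : ZMod m, f (tij i j k v) + ∑ k : ZMod m, f (tij i j k (sw i j v)) = V := by
  obtain ⟨l, hl⟩ : ∃ l, l ∉ ({i, j} : Finset (Fin N)) := by
    by_contra hcon
    push Not at hcon
    have h1 : (univ : Finset (Fin N)) ⊆ {i, j} := fun l _ => hcon l
    have h2 := card_le_card h1
    rw [card_univ, Fintype.card_fin] at h2
    have h3 : ({i, j} : Finset (Fin N)).card ≤ 2 := card_le_two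
    omega
  rw [mem_insert, mem_singleton, not_or] at hl
  refine ⟨val m f (2 * m) (KK i j m (Pi.single i 1)), fun v hv => ?_⟩
  have hsum : ∑ k : ZMod m, f (tij i j k v) + ∑ k : ZMod m, f (tij i j k (sw i j v)) =
      ((orb i j m v).map f).sum := by
    rw [orb, Multiset.map_add, Multiset.sum_add, Multiset.map_map, Multiset.map_map]
    rfl
  rw [hsum]
  set z : Fin N → 𝕜 := fun l => if l = i then v i * v j else if l = j then 0 else v l with hz
  have hzi : z i = v i * v j := by simp [hz]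
  have hzl : ∀ l, l ≠ i → l ≠ j → z l = v l := by
    intro l hl hl'
    simp [hz, hl, hl']
  have hzj : z j = 0 := by simp [hz, hij.symm]
  have hz0 : z ≠ 0 := by
    intro h0
    have h1 : ∀ l, l ≠ i → l ≠ j → v l = 0 := by
      intro l hl hl'
      rw [← hzl l hl hl', h0]
      rfl
    have h2 : v i * v j = 0 := by
      rw [← hzi, h0]
      rfl
    have h3 := hv.2
    rw [sum_split hij] at h3
    have h4 : ∑ l ∈ (univ.erase i).erase j, v l ^ m = 0 := by
      refine sum_eq_zero fun l hl => ?_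
      rw [mem_erase, mem_erase] at hl
      rw [h1 l hl.2.1 hl.1, zero_pow (NeZero.ne m)]
    rw [h4, add_zero] at h3
    have h5 : v i = 0 ∧ v j = 0 := by
      rcases mul_eq_zero.1 h2 with h | h
      · refine ⟨h, ?_⟩
        rw [h, zero_pow (NeZero.ne m), zero_add] at h3
        exact eq_zero_of_pow_eq_zero h3
      · refine ⟨?_, h⟩
        rw [h, zero_pow (NeZero.ne m), add_zero] at h3
        exact eq_zero_of_pow_eq_zero h3
    apply hv.1
    funext l
    by_cases hli : l = i
    · rw [hli]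
      exact h5.1
    · by_cases hlj : l = j
      · rw [hlj]
        exact h5.2
      · exact h1 l hli hlj
  have hrep : ∀ w : Fin N → 𝕜, (∃ l, l ≠ j ∧ w l ≠ 0) → ∃ s, Rep m (2 * m) (KK i j m w) s :=
    fun w hw => exists_rep_KK hij hw
  have hline : ∀ c : 𝕜, c ≠ 0 → val m f (2 * m) (KK i j m (c • Pi.single i 1)) =
      val m f (2 * m) (KK i j m (Pi.single l 1)) := by
    intro c hc
    refine hf.line (fun v w => PF.seg_KK i j v w) fun t => hrep _ ?_
    by_cases ht : t = 0
    · refine ⟨i, hij, ?_⟩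
      rw [ht, seg_zero, Pi.smul_apply, Pi.single_eq_same, smul_eq_mul, mul_one]
      exact hc
    · refine ⟨l, hl.2, ?_⟩
      rw [seg_apply, Pi.smul_apply, Pi.single_eq_same, Pi.single_eq_of_ne hl.1, smul_zero, zero_add,
        sub_zero, mul_one]
      exact ht
  rw [hf.val_eq (rep_orb hij hv hzi hzl)]
  refine hf.cone (K := fun w => KK i j m w) (fun v w => PF.seg_KK i j v w) (univ.erase j)
    (mem_erase.2 ⟨hij, mem_univ i⟩) ?_ ?_ hz0 ?_
  · intro w hw hwj
    refine hrep w ?_
    by_contra hcon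
    push Not at hcon
    apply hw
    funext l
    by_cases hlj : l = j
    · exact hwj l (by simp [hlj])
    · exact hcon l hlj
  · intro c hc
    rw [hline c hc, ← hline 1 one_ne_zero, one_smul]
  · intro l hlS
    have : l = j := by
      by_contra hlj
      exact hlS (mem_erase.2 ⟨hlj, mem_univ l⟩)
    rw [this]
    exact hzj

end

end Pool.Agent.T2H37.FK
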