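import Pool.Agent.T2H37.FK.Mono

/-!
# Averages over a finite group
-/

set_option autoImplicit false
set_option linter.unusedSectionVars false
set_option linter.unusedSimpArgs false

namespace Pool.Agent.T2H37.FK

open MvPolynomial Finset

variable {𝕜 : Type*} [Field 𝕜] [IsAlgClosed 𝕜] [CharZero 𝕜]

variable {N m : ℕ} [NeZero m]

lemma mulVec_of_mono {g : Matrix (Fin N) (Fin N) 𝕜} {k : Fin N → ZMod m} {σ : Equiv.Perm (Fin N)}
    (h : ∀ l j, g l j = if j = σ l then e 𝕜 (k l) else 0) (v : Fin N → 𝕜) :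
    g.mulVec v = dg k fun l => v (σ l) := by
  funext l
  rw [Matrix.mulVec, dotProduct, dg]
  simp only [h, ite_mul, zero_mul, sum_ite_eq', mem_univ, if_true]

lemma det_of_mono {g : Matrix (Fin N) (Fin N) 𝕜} {k : Fin N → ZMod m} {σ : Equiv.Perm (Fin N)}
    (h : ∀ l j, g l j = if j = σ l then e 𝕜 (k l) else 0) :
    g.det = ((Equiv.Perm.sign σ : ℤ) : 𝕜) * ∏ l, e 𝕜 (k l) := by
  have h1 : g = Matrix.diagonal (fun l => e 𝕜 (k l)) * (Equiv.Perm.permMatrix 𝕜 σ) := by
    ext l j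
    rw [Matrix.diagonal_mul, h, Equiv.Perm.permMatrix, PEquiv.toMatrix_apply]
    by_cases hj : j = σ l
    · simp [hj]
    · have : ¬ σ l = j := fun h => hj h.symm
      simp [hj, this, eq_comm]
  rw [h1, Matrix.det_mul, Matrix.det_diagonal, Matrix.det_permutation, mul_comm]

lemma lin_homogeneous (v : Fin N → 𝕜) : (lin v).IsHomogeneous 1 := by
  refine IsHomogeneous.sum _ _ _ fun i _ => ?_
  have h1 := (isHomogeneous_C (Fin N) (v i)).mul (isHomogeneous_X 𝕜 i)
  rwa [zero_add] at h1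

lemma sign_cases (σ : Equiv.Perm (Fin N)) :
    ((Equiv.Perm.sign σ : ℤ) : 𝕜) = 1 ∨ ((Equiv.Perm.sign σ : ℤ) : 𝕜) = -1 := by
  rcases Int.units_eq_one_or (Equiv.Perm.sign σ) with h | h
  · left
    rw [h]
    simp
  · right
    rw [h]
    simp

/-- multiplication by a unit does not change the roots of unity that are signs -/
lemma e_unit_sign {x : ZMod m} {s : 𝕜} (hs : s = 1 ∨ s = -1) (h : e 𝕜 x * s = 1) (t : (ZMod m)ˣ) :
    e 𝕜 ((t : ZMod m) * x) * s = 1 := by
  rcases hs with rfl | rfl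
  · rw [mul_one, ← e_zero (𝕜 := 𝕜) (m := m)] at h
    rw [e_inj h, mul_zero, e_zero, one_mul]
  · have h1 : e 𝕜 x = -1 := by linear_combination -h
    have h2 : e 𝕜 ((t : ZMod m) * x) * e 𝕜 ((t : ZMod m) * x) = 1 := by
      rw [← e_add, ← mul_add]
      have h3 : x + x = 0 := by
        apply e_inj (𝕜 := 𝕜)
        rw [e_add, h1, e_zero]
        norm_num
      rw [h3, mul_zero, e_zero]
    have h3 : e 𝕜 ((t : ZMod m) * x) ≠ 1 := by
      intro h4
      rw [← e_zero (𝕜 := 𝕜) (m := m)] at h4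
      have h5 := e_inj h4
      have h6 : x = 0 := by
        have := congrArg (fun y => ((t⁻¹ : (ZMod m)ˣ) : ZMod m) * y) h5
        simpa using this
      rw [h6, e_zero] at h1
      norm_num at h1
    have h4 : (e 𝕜 ((t : ZMod m) * x) - 1) * (e 𝕜 ((t : ZMod m) * x) + 1) = 0 := by
      linear_combination h2
    have h5 := (mul_eq_zero.1 h4).resolve_left (sub_ne_zero.2 h3)
    linear_combination -h5

variable (H : Subgroup (FermatGroup 𝕜 N m)) [Fintype H]

/-- the average of a function over the group -/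
noncomputable def avg (F : (Fin N → 𝕜) → 𝕜) (v : Fin N → 𝕜) : 𝕜 :=
  ∑ h : H, F (h.1.1.1.mulVec v)

lemma onX_mulVec (g : FermatGroup 𝕜 N m) {v : Fin N → 𝕜} (hv : OnX m v) :
    OnX m (g.1.1.mulVec v) :=
  ⟨mulVec_ne_zero g.1 hv.1, by rw [g.2]; exact hv.2⟩

/-- the average of a monomial as a form -/
noncomputable def avgForm (b : Fin N → ℕ) : MvPolynomial (Fin N) 𝕜 :=
  ∑ h : H, C (h.1.1.1.det) * ∏ l, lin (h.1.1.1 l) ^ b l

lemma eval_avgForm (b : Fin N → ℕ) (v : Fin N → 𝕜) :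
    eval v (avgForm H b) = ∑ h : H, h.1.1.1.det * ∏ l, (h.1.1.1.mulVec v l) ^ b l := by
  rw [avgForm, map_sum]
  refine sum_congr rfl fun h _ => ?_
  rw [map_mul, eval_C, map_prod]
  simp only [map_pow, lin_row]

lemma avgForm_homogeneous (b : Fin N → ℕ) : (avgForm H b).IsHomogeneous (∑ l, b l) := by
  refine IsHomogeneous.sum _ _ _ fun h _ => ?_
  have h1 : (∏ l, lin (h.1.1.1 l) ^ b l).IsHomogeneous (∑ l, b l) := by
    refine IsHomogeneous.prod _ _ _ fun l _ => ?_
    have h2 := (lin_homogeneous (h.1.1.1 l)).pow (b l)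
    rwa [one_mul] at h2
  have h2 := (isHomogeneous_C (Fin N) (h.1.1.1.det)).mul h1
  rwa [zero_add] at h2

lemma avgForm_inv (b : Fin N → ℕ) (g : FermatGroup 𝕜 N m) (hg : g ∈ H) (v : Fin N → 𝕜) :
    g.1.1.det * eval (g.1.1.mulVec v) (avgForm H b) = eval v (avgForm H b) := by
  rw [eval_avgForm, eval_avgForm, mul_sum]
  refine Fintype.sum_equiv (Equiv.mulRight ⟨g, hg⟩) _ _ fun h => ?_
  have h1 : ((Equiv.mulRight (⟨g, hg⟩ : H)) h).1.1.1 = h.1.1.1 * g.1.1 := rfl
  rw [h1, Matrix.det_mul, ← Matrix.mulVec_mulVec]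
  ring

lemma prod_X_perm (σ : Equiv.Perm (Fin N)) (b : Fin N → ℕ) :
    ∏ l, (X (σ l) : MvPolynomial (Fin N) 𝕜) ^ b l =
      monomial (Finsupp.equivFunOnFinite.symm fun j => b (σ.symm j)) 1 := by
  rw [monomial_eq, C_1, one_mul, Finsupp.prod_fintype]
  · conv_rhs => rw [← Equiv.prod_comp σ]
    refine prod_congr rfl fun l _ => ?_
    simp
  · intro i
    rw [pow_zero]

lemma avgForm_ne_zero {α : Fin N → ZMod m} (t : (ZMod m)ˣ) (hm : 3 ≤ m)
    (hα : ∀ l, α l ≠ 0)
    (hstab : ∀ h ∈ H, ∀ (k : Fin N → ZMod m) (σ : Equiv.Perm (Fin N)),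
      (∀ l j, h.1.1 l j = if j = σ l then e 𝕜 (k l) else 0) → (∀ l, α (σ l) = α l) →
        e 𝕜 (pr α k) * ((Equiv.Perm.sign σ : ℤ) : 𝕜) = 1) :
    avgForm H (fun l => ((t : ZMod m) * α l).val - 1) ≠ 0 := by
  have hpos : ∀ l, 1 ≤ ((t : ZMod m) * α l).val := by
    intro l
    rw [Nat.one_le_iff_ne_zero, Ne, ZMod.val_eq_zero]
    intro h
    apply hα l
    have := congrArg (fun y => ((t⁻¹ : (ZMod m)ˣ) : ZMod m) * y) h
    simpa using this
  set b : Fin N → ℕ := fun l => ((t : ZMod m) * α l).val - 1 with hb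
  have hbα : ∀ l l', b l = b l' ↔ α l = α l' := by
    intro l l'
    constructor
    · intro h
      have h1 : ((t : ZMod m) * α l).val = ((t : ZMod m) * α l').val := by
        have h2 := hpos l
        have h3 := hpos l'
        simp only [hb] at h
        omega
      have h2 := ZMod.val_injective m h1
      have := congrArg (fun y => ((t⁻¹ : (ZMod m)ˣ) : ZMod m) * y) h2
      simpa using this
    · intro h
      simp only [hb, h]
  choose k σ hkσ using fun h : FermatGroup 𝕜 N m => monomial_form hm h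
  have hcoeff : coeff (Finsupp.equivFunOnFinite.symm b) (avgForm H b) =
      ∑ h : H, if ∀ l, α (σ h.1 l) = α l then (1 : 𝕜) else 0 := by
    rw [avgForm, coeff_sum]
    refine sum_congr rfl fun h _ => ?_
    have h1 : ∀ l, lin (h.1.1.1 l) = C (e 𝕜 (k h.1 l)) * X (σ h.1 l) := by
      intro l
      rw [lin, sum_eq_single (σ h.1 l)]
      · rw [hkσ h.1, if_pos rfl]
      · intro j _ hj
        rw [hkσ h.1, if_neg hj, C_0, zero_mul]
      · intro h
        exact absurd (mem_univ _) h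
    have h2 : ∏ l, lin (h.1.1.1 l) ^ b l = C (∏ l, e 𝕜 (k h.1 l) ^ b l) *
        monomial (Finsupp.equivFunOnFinite.symm fun j => b ((σ h.1).symm j)) 1 := by
      rw [← prod_X_perm, map_prod, ← prod_mul_distrib]
      refine prod_congr rfl fun l _ => ?_
      rw [h1, mul_pow, C_pow]
    rw [h2, ← mul_assoc, ← C_mul, coeff_C_mul, coeff_monomial]
    by_cases hst : ∀ l, α (σ h.1 l) = α l
    · rw [if_pos hst]
      have h3 : (Finsupp.equivFunOnFinite.symm fun j => b ((σ h.1).symm j)) =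
          Finsupp.equivFunOnFinite.symm b := by
        congr 1
        funext j
        rw [hbα, ← hst ((σ h.1).symm j), Equiv.apply_symm_apply]
      rw [if_pos h3, mul_one, det_of_mono (hkσ h.1), mul_assoc, ← prod_mul_distrib]
      have h4 : ∏ l, e 𝕜 (k h.1 l) * e 𝕜 (k h.1 l) ^ b l = e 𝕜 ((t : ZMod m) * pr α (k h.1)) := by
        rw [pr, mul_sum, e_sum]
        refine prod_congr rfl fun l _ => ?_
        have h5 : e 𝕜 (k h.1 l) * e 𝕜 (k h.1 l) ^ b l = e 𝕜 (k h.1 l) ^ (((t : ZMod m) * α l).val) := by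
          rw [← pow_succ']
          congr 1
          have := hpos l
          simp only [hb]
          omega
        rw [h5, e_def, e_def, ← AddChar.map_nsmul_eq_pow, nsmul_eq_mul, ZMod.natCast_zmod_val]
        congr 1
        ring
      rw [h4, mul_comm]
      exact e_unit_sign (sign_cases _) (hstab h.1 h.2 _ _ (hkσ h.1) hst) t
    · rw [if_neg hst]
      have h3 : (Finsupp.equivFunOnFinite.symm fun j => b ((σ h.1).symm j)) ≠
          Finsupp.equivFunOnFinite.symm b := by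
        intro h4
        apply hst
        intro l
        have h5 := congrFun (Finsupp.equivFunOnFinite.symm.injective h4) (σ h.1 l)
        simp only [Equiv.symm_apply_apply] at h5
        exact ((hbα _ _).1 h5).symm
      rw [if_neg h3, mul_zero]
  intro h0
  rw [h0, coeff_zero, sum_ite, sum_const_zero, add_zero, sum_const, nsmul_eq_mul, mul_one] at hcoeff
  have h1 := (Nat.cast_eq_zero (R := 𝕜)).1 hcoeff.symm
  rw [card_eq_zero, filter_eq_empty_iff] at h1
  refine h1 (mem_univ (1 : H)) fun l => ?_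
  have h2 := hkσ (1 : H).1 l l
  have h3 : (1 : H).1.1.1 l l = 1 := by
    change (1 : Matrix (Fin N) (Fin N) 𝕜) l l = 1
    rw [Matrix.one_apply_eq]
  rw [h3] at h2
  split_ifs at h2 with h4
  · rw [← h4]
  · exact absurd h2 one_ne_zero

variable {f : (Fin N → 𝕜) → 𝕜}

lemma avg_mul (F : (Fin N → 𝕜) → 𝕜) {g : FermatGroup 𝕜 N m} (hg : g ∈ H) (v : Fin N → 𝕜) :
    ∑ h : H, F (g.1.1.mulVec (h.1.1.1.mulVec v)) = avg H F v := by
  rw [avg]
  refine Fintype.sum_equiv (Equiv.mulLeft ⟨g, hg⟩) _ _ fun h => ?_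
  have h1 : ((Equiv.mulLeft (⟨g, hg⟩ : H)) h).1.1.1 = g.1.1 * h.1.1.1 := rfl
  rw [h1, ← Matrix.mulVec_mulVec]

/-- the averages of the components for minimal zero-sum characters vanish -/
lemma Good.avg_minimal (hf : Good m f) (hm : 3 ≤ m) (hN : 3 ≤ N) (hmN : m + 3 ≤ 2 * N)
    (hH : ∀ (d : ℕ) (P : MvPolynomial (Fin N) 𝕜), d + N = m → P.IsHomogeneous d →
      (∀ h ∈ H, ∀ v, h.1.1.det * eval (h.1.1.mulVec v) P = eval v P) → P = 0)
    {α : Fin N → ZMod m} (h0 : ∑ i, α i = 0)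
    (hmin : ∀ B : Finset (Fin N), B.Nonempty → B ≠ univ → ∑ i ∈ B, α i ≠ 0)
    {v : Fin N → 𝕜} (hv : OnX m v) : avg H (comp f α) v = 0 := by
  by_contra hne
  obtain ⟨t, ht⟩ := Pool.Agent.T2H37.FB.index_one (by omega) α h0 hmin (by rw [Fintype.card_fin]; omega)
  have hα : ∀ l, α l ≠ 0 := by
    intro l
    have h1 := hmin {l} (singleton_nonempty l) (by
      intro h
      have h1 := congrArg Finset.card h
      rw [card_singleton, card_univ, Fintype.card_fin] at h1
      omega)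
    rwa [sum_singleton] at h1
  have hα0 : α ≠ 0 := by
    intro h
    exact hα ⟨0, by omega⟩ (by rw [h]; rfl)
  have hpos : ∀ l, 1 ≤ ((t : ZMod m) * α l).val := by
    intro l
    rw [Nat.one_le_iff_ne_zero, Ne, ZMod.val_eq_zero]
    intro h
    apply hα l
    have := congrArg (fun y => ((t⁻¹ : (ZMod m)ˣ) : ZMod m) * y) h
    simpa using this
  refine avgForm_ne_zero H t hm hα ?_ (hH (∑ l, (((t : ZMod m) * α l).val - 1)) _ ?_
    (avgForm_homogeneous H _) fun h hh v => avgForm_inv H _ h hh v)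
  · intro h hh k σ hkσ hασ
    have h1 := avg_mul H (comp f α) hh v
    have h2 : ∀ g : H, comp f α (h.1.1.mulVec (g.1.1.1.mulVec v)) =
        e 𝕜 (pr α k) * ((Equiv.Perm.sign σ : ℤ) : 𝕜) * comp f α (g.1.1.1.mulVec v) := by
      intro g
      rw [mulVec_of_mono hkσ, comp_dg, hf.comp_perm hN hα0 _ σ rfl hασ _ (onX_mulVec g.1 hv),
        mul_assoc]
    simp only [h2] at h1
    rw [← mul_sum] at h1
    change _ * avg H (comp f α) v = _ at h1
    have h3 : (e 𝕜 (pr α k) * ((Equiv.Perm.sign σ : ℤ) : 𝕜) - 1) * avg H (comp f α) v = 0 := by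
      rw [sub_mul, h1, one_mul, sub_self]
    exact sub_eq_zero.1 ((mul_eq_zero.1 h3).resolve_right hne)
  · have h1 : ∑ l, (((t : ZMod m) * α l).val - 1) + ∑ l : Fin N, 1 = m := by
      rw [← sum_add_distrib]
      refine Eq.trans ?_ ht
      refine sum_congr rfl fun l _ => ?_
      have := hpos l
      omega
    simpa using h1

/-- the averages are constant -/
theorem Good.avg_const (hf : Good m f) (hm : 3 ≤ m) (hN : 3 ≤ N) (hmN : m + 3 ≤ 2 * N)
    (hH : ∀ (d : ℕ) (P : MvPolynomial (Fin N) 𝕜), d + N = m → P.IsHomogeneous d →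
      (∀ h ∈ H, ∀ v, h.1.1.det * eval (h.1.1.mulVec v) P = eval v P) → P = 0) :
    ∃ V : 𝕜, ∀ v, OnX m v → avg H f v = V := by
  obtain ⟨V, hV⟩ := hf.comp_zero (by omega)
  have hα : ∀ α : Fin N → ZMod m, α ≠ 0 → ∀ v, OnX m v → avg H (comp f α) v = 0 := by
    intro α hα0 v hv
    by_cases h0 : ∑ i, α i = 0
    · by_cases hmin : ∀ B : Finset (Fin N), B.Nonempty → B ≠ univ → ∑ i ∈ B, α i ≠ 0
      · exact hf.avg_minimal H hm hN hmN hH h0 hmin hv
      · push Not at hmin
        obtain ⟨B, hB, hB', hBα⟩ := hmin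
        refine sum_eq_zero fun h _ => ?_
        exact hf.comp_B_zero hB hB' hα0 hBα (onX_mulVec h.1 hv)
    · refine sum_eq_zero fun h _ => ?_
      exact hf.comp_sum_ne h0 (onX_mulVec h.1 hv)
  refine ⟨(Fintype.card H : 𝕜) * V / (m : 𝕜) ^ N, fun v hv => ?_⟩
  have h1 : ∑ α : Fin N → ZMod m, avg H (comp f α) v = (m : 𝕜) ^ N * avg H f v := by
    simp only [avg]
    rw [sum_comm]
    simp only [sum_comp]
    rw [mul_sum]
  have h2 : ∑ α : Fin N → ZMod m, avg H (comp f α) v = (Fintype.card H : 𝕜) * V := by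
    rw [sum_eq_single 0]
    · have h3 : ∀ h : H, comp f 0 (h.1.1.1.mulVec v) = V := fun h => hV _ (onX_mulVec h.1 hv)
      simp only [avg, h3, sum_const, card_univ, nsmul_eq_mul]
    · intro α _ hα0
      exact hα α hα0 v hv
    · intro h
      exact absurd (mem_univ _) h
  rw [h1] at h2
  rw [← h2, mul_div_cancel_left₀ _ (pow_ne_zero _ m_ne_zero)]

end Pool.Agent.T2H37.FK
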