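import Pool.Agent.T2H37.FK.Inv

/-!
# Integral combinations of automorphisms
-/

set_option autoImplicit false
set_option linter.unusedSectionVars false
set_option linter.unusedSimpArgs false

namespace Pool.Agent.T2H37.FK

open MvPolynomial Finset

variable {𝕜 : Type*} [Field 𝕜] [IsAlgClosed 𝕜] [CharZero 𝕜]

variable {N m : ℕ} [NeZero m]

lemma e_primitive (t : (ZMod m)ˣ) : IsPrimitiveRoot (e 𝕜 (t : ZMod m)) m := by
  refine ⟨e_pow_m _, fun l hl => ?_⟩
  rw [e_def, ← AddChar.map_nsmul_eq_pow] at hl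
  change e 𝕜 (l • (t : ZMod m)) = 1 at hl
  rw [← e_zero (𝕜 := 𝕜) (m := m)] at hl
  have h1 := e_inj hl
  rw [nsmul_eq_mul] at h1
  have h2 : (l : ZMod m) = 0 := by
    have := congrArg (fun y => y * ((t⁻¹ : (ZMod m)ˣ) : ZMod m)) h1
    simpa [mul_assoc] using this
  exact (ZMod.natCast_eq_zero_iff l m).1 h2

/-- Galois conjugation for integral combinations of roots of unity -/
lemma galois {ι : Type*} (s : Finset ι) (c : ι → ℤ) (x : ι → ZMod m) (t : (ZMod m)ˣ)
    (h : ∑ i ∈ s, (c i : 𝕜) * e 𝕜 ((t : ZMod m) * x i) = 0) : ∑ i ∈ s, (c i : 𝕜) * e 𝕜 (x i) = 0 := by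
  set Q : Polynomial ℤ := ∑ i ∈ s, Polynomial.C (c i) * Polynomial.X ^ (x i).val with hQ
  have haeval : ∀ u : ZMod m, Polynomial.aeval (e 𝕜 u) Q = ∑ i ∈ s, (c i : 𝕜) * e 𝕜 (u * x i) := by
    intro u
    rw [hQ, map_sum]
    refine sum_congr rfl fun i _ => ?_
    rw [map_mul, map_pow, Polynomial.aeval_X, Polynomial.aeval_C]
    have h1 : e 𝕜 u ^ (x i).val = e 𝕜 (u * x i) := by
      rw [e_def, e_def, ← AddChar.map_nsmul_eq_pow, nsmul_eq_mul, ZMod.natCast_zmod_val, mul_comm]
    rw [h1]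
    simp
  have h1 : minpoly ℤ (e 𝕜 (t : ZMod m)) = minpoly ℤ (e 𝕜 ((1 : (ZMod m)ˣ) : ZMod m)) := by
    rw [← Polynomial.cyclotomic_eq_minpoly (e_primitive t) (NeZero.pos m),
      ← Polynomial.cyclotomic_eq_minpoly (e_primitive 1) (NeZero.pos m)]
  have h2 : minpoly ℤ (e 𝕜 (t : ZMod m)) ∣ Q :=
    minpoly.isIntegrallyClosed_dvd ((e_primitive t).isIntegral (NeZero.pos m))
      (by rw [haeval, h])
  rw [h1] at h2
  obtain ⟨R, hR⟩ := h2
  have h3 : Polynomial.aeval (e 𝕜 ((1 : (ZMod m)ˣ) : ZMod m)) Q = 0 := by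
    rw [hR, map_mul, minpoly.aeval, zero_mul]
  rw [haeval] at h3
  simpa using h3

/-- the action of an integral combination of automorphisms on functions -/
noncomputable def wavg (a : FermatGroup 𝕜 N m →₀ ℤ) (F : (Fin N → 𝕜) → 𝕜) (v : Fin N → 𝕜) : 𝕜 :=
  a.sum fun g c => (c : 𝕜) * F (g.1.1.mulVec v)

variable {f : (Fin N → 𝕜) → 𝕜}

/-- the components for minimal zero-sum characters are killed -/
lemma Good.wavg_minimal (hf : Good m f) (hm : 3 ≤ m) (hN : 3 ≤ N) (hmN : m + 3 ≤ 2 * N)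
    (a : FermatGroup 𝕜 N m →₀ ℤ)
    (ha : ∀ (d : ℕ) (P : MvPolynomial (Fin N) 𝕜), d + N = m → P.IsHomogeneous d →
      ∀ v : Fin N → 𝕜, (a.sum fun g c => (c : 𝕜) * (g.1.1.det * eval (g.1.1.mulVec v) P)) = 0)
    {α : Fin N → ZMod m} (h0 : ∑ i, α i = 0)
    (hmin : ∀ B : Finset (Fin N), B.Nonempty → B ≠ univ → ∑ i ∈ B, α i ≠ 0)
    {v : Fin N → 𝕜} (hv : OnX m v) : wavg a (comp f α) v = 0 := by
  obtain ⟨t, ht⟩ := Pool.Agent.T2H37.FB.index_one (by omega) α h0 hmin (by rw [Fintype.card_fin]; omega)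
  have hα : ∀ l, α l ≠ 0 := by
    intro l
    have h1 := hmin {l} (singleton_nonempty l) (by
      intro h
      have h1 := congrArg Finset.card h
      rw [card_singleton, card_univ, Fintype.card_fin] at h1
      omega)
    rwa [sum_singleton] at h1
  have hα0 : α ≠ 0 := by
    intro h
    exact hα ⟨0, by omega⟩ (by rw [h]; rfl)
  have hpos : ∀ l, 1 ≤ ((t : ZMod m) * α l).val := by
    intro l
    rw [Nat.one_le_iff_ne_zero, Ne, ZMod.val_eq_zero]
    intro h
    apply hα l
    have := congrArg (fun y => ((t⁻¹ : (ZMod m)ˣ) : ZMod m) * y) h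
    simpa using this
  set b : Fin N → ℕ := fun l => ((t : ZMod m) * α l).val - 1 with hb
  have hbα : ∀ l l', b l = b l' ↔ α l = α l' := by
    intro l l'
    constructor
    · intro h
      have h1 : ((t : ZMod m) * α l).val = ((t : ZMod m) * α l').val := by
        have h2 := hpos l
        have h3 := hpos l'
        simp only [hb] at h
        omega
      have h2 := ZMod.val_injective m h1
      have := congrArg (fun y => ((t⁻¹ : (ZMod m)ˣ) : ZMod m) * y) h2
      simpa using this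
    · intro h
      simp only [hb, h]
  have hdeg : ∑ l, b l + N = m := by
    have h1 : ∑ l, b l + ∑ l : Fin N, 1 = m := by
      rw [← sum_add_distrib]
      refine Eq.trans ?_ ht
      refine sum_congr rfl fun l _ => ?_
      have := hpos l
      simp only [hb]
      omega
    simpa using h1
  choose k σ hkσ using fun h : FermatGroup 𝕜 N m => monomial_form hm h
  have hlin : ∀ g : FermatGroup 𝕜 N m, ∀ l, lin (g.1.1 l) = C (e 𝕜 (k g l)) * X (σ g l) := by
    intro g l
    rw [lin, sum_eq_single (σ g l)]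
    · rw [hkσ g, if_pos rfl]
    · intro j _ hj
      rw [hkσ g, if_neg hj, C_0, zero_mul]
    · intro h
      exact absurd (mem_univ _) h
  -- the polynomial identity
  have hM : (∏ l, (X l : MvPolynomial (Fin N) 𝕜) ^ b l).IsHomogeneous (∑ l, b l) := by
    refine IsHomogeneous.prod _ _ _ fun l _ => ?_
    have h2 := (isHomogeneous_X 𝕜 l).pow (b l)
    rwa [one_mul] at h2
  have hpoly : ∑ g ∈ a.support, C ((a g : 𝕜) * g.1.1.det) * ∏ l, lin (g.1.1 l) ^ b l = 0 := by
    apply MvPolynomial.funext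
    intro u
    have h1 := ha _ _ hdeg hM u
    rw [Finsupp.sum] at h1
    rw [map_zero, map_sum, ← h1]
    refine sum_congr rfl fun g _ => ?_
    rw [map_mul, eval_C, map_prod, map_prod, mul_assoc]
    simp only [map_pow, lin_row, eval_X]
  have hcoef : ∀ g₀ : FermatGroup 𝕜 N m,
      ∑ g ∈ a.support with (fun j => α ((σ g).symm j)) = fun j => α ((σ g₀).symm j),
        (a g : 𝕜) * ((Equiv.Perm.sign (σ g) : ℤ) : 𝕜) * e 𝕜 ((t : ZMod m) * pr α (k g)) = 0 := by
    intro g₀
    have h1 := congrArg (coeff (Finsupp.equivFunOnFinite.symm fun j => b ((σ g₀).symm j))) hpoly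
    rw [coeff_zero, coeff_sum] at h1
    rw [← h1, sum_filter]
    refine sum_congr rfl fun g _ => ?_
    have h2 : ∏ l, lin (g.1.1 l) ^ b l = C (∏ l, e 𝕜 (k g l) ^ b l) *
        monomial (Finsupp.equivFunOnFinite.symm fun j => b ((σ g).symm j)) 1 := by
      rw [← prod_X_perm, map_prod, ← prod_mul_distrib]
      refine prod_congr rfl fun l _ => ?_
      rw [hlin, mul_pow, C_pow]
    rw [h2, ← mul_assoc, ← C_mul, coeff_C_mul, coeff_monomial]
    by_cases hst : (fun j => α ((σ g).symm j)) = fun j => α ((σ g₀).symm j)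
    · rw [if_pos hst]
      have h3 : (Finsupp.equivFunOnFinite.symm fun j => b ((σ g).symm j)) =
          Finsupp.equivFunOnFinite.symm fun j => b ((σ g₀).symm j) := by
        congr 1
        funext j
        rw [hbα]
        exact congrFun hst j
      rw [if_pos h3, mul_one, det_of_mono (hkσ g)]
      have h4 : ∏ l, e 𝕜 (k g l) * e 𝕜 (k g l) ^ b l = e 𝕜 ((t : ZMod m) * pr α (k g)) := by
        rw [pr, mul_sum, e_sum]
        refine prod_congr rfl fun l _ => ?_
        have h5 : e 𝕜 (k g l) * e 𝕜 (k g l) ^ b l = e 𝕜 (k g l) ^ (((t : ZMod m) * α l).val) := by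
          rw [← pow_succ']
          congr 1
          have := hpos l
          simp only [hb]
          omega
        rw [h5, e_def, e_def, ← AddChar.map_nsmul_eq_pow, nsmul_eq_mul, ZMod.natCast_zmod_val]
        congr 1
        ring
      rw [← h4, prod_mul_distrib]
      ring
    · rw [if_neg hst]
      have h3 : (Finsupp.equivFunOnFinite.symm fun j => b ((σ g).symm j)) ≠
          Finsupp.equivFunOnFinite.symm fun j => b ((σ g₀).symm j) := by
        intro h4
        apply hst
        funext j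
        exact (hbα _ _).1 (congrFun (Finsupp.equivFunOnFinite.symm.injective h4) j)
      rw [if_neg h3, mul_zero]
  have hcoef2 : ∀ g₀ : FermatGroup 𝕜 N m,
      ∑ g ∈ a.support with (fun j => α ((σ g).symm j)) = fun j => α ((σ g₀).symm j),
        (a g : 𝕜) * ((Equiv.Perm.sign (σ g) : ℤ) : 𝕜) * e 𝕜 (pr α (k g)) = 0 := by
    intro g₀
    have h1 := galois (a.support.filter fun g =>
      (fun j => α ((σ g).symm j)) = fun j => α ((σ g₀).symm j))
      (fun g => a g * (Equiv.Perm.sign (σ g) : ℤ)) (fun g => pr α (k g)) t (by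
        rw [← hcoef g₀]
        refine sum_congr rfl fun g _ => ?_
        push_cast
        rfl)
    rw [← h1]
    refine sum_congr rfl fun g _ => ?_
    push_cast
    rfl
  -- the sum
  rw [wavg, Finsupp.sum]
  rw [← sum_fiberwise a.support (fun g => (fun j => α ((σ g).symm j)))]
  refine sum_eq_zero fun β _ => ?_
  by_cases hβ : ∃ g₀ ∈ a.support, (fun j => α ((σ g₀).symm j)) = β
  · obtain ⟨g₀, _, rfl⟩ := hβ
    have h1 : ∀ g ∈ a.support.filter (fun g => (fun j => α ((σ g).symm j)) =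
        fun j => α ((σ g₀).symm j)),
        (a g : 𝕜) * comp f α (g.1.1.mulVec v) =
          ((a g : 𝕜) * ((Equiv.Perm.sign (σ g) : ℤ) : 𝕜) * e 𝕜 (pr α (k g))) *
            (((Equiv.Perm.sign (σ g₀) : ℤ) : 𝕜) * comp f α fun l => v (σ g₀ l)) := by
      intro g hg
      rw [mem_filter] at hg
      have hst := hg.2
      rw [mulVec_of_mono (hkσ g), comp_dg]
      set π : Equiv.Perm (Fin N) := (σ g₀)⁻¹ * σ g with hπ
      have hαπ : ∀ l, α (π l) = α l := by
        intro l
        have h2 := congrFun hst (σ g l)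
        simp only [Equiv.symm_apply_apply] at h2
        rw [h2]
        rfl
      have hσg : ∀ l, σ g l = σ g₀ (π l) := by
        intro l
        rw [hπ, Equiv.Perm.mul_apply]
        exact ((σ g₀).apply_symm_apply _).symm
      have h3 : (fun l => v (σ g l)) = fun l => (fun l' => v (σ g₀ l')) (π l) := by
        funext l
        rw [hσg]
      rw [h3, hf.comp_perm hN hα0 _ π rfl hαπ _ (onX_perm (σ g₀) hv)]
      have h4 : ((Equiv.Perm.sign π : ℤ) : 𝕜) =
          ((Equiv.Perm.sign (σ g₀) : ℤ) : 𝕜) * ((Equiv.Perm.sign (σ g) : ℤ) : 𝕜) := by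
        rw [hπ, Equiv.Perm.sign_mul, Equiv.Perm.sign_inv]
        push_cast
        rfl
      rw [h4]
      ring
    rw [sum_congr rfl h1, ← sum_mul, hcoef2 g₀, zero_mul]
  · push Not at hβ
    refine sum_eq_zero fun g hg => ?_
    rw [mem_filter] at hg
    exact absurd hg.2 (hβ g hg.1)

/-- the combinations are constant -/
theorem Good.wavg_const (hf : Good m f) (hm : 3 ≤ m) (hN : 3 ≤ N) (hmN : m + 3 ≤ 2 * N)
    (a : FermatGroup 𝕜 N m →₀ ℤ)
    (ha : ∀ (d : ℕ) (P : MvPolynomial (Fin N) 𝕜), d + N = m → P.IsHomogeneous d →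
      ∀ v : Fin N → 𝕜, (a.sum fun g c => (c : 𝕜) * (g.1.1.det * eval (g.1.1.mulVec v) P)) = 0) :
    ∃ V : 𝕜, ∀ v, OnX m v → wavg a f v = V := by
  obtain ⟨V, hV⟩ := hf.comp_zero (by omega)
  have hα : ∀ α : Fin N → ZMod m, α ≠ 0 → ∀ v, OnX m v → wavg a (comp f α) v = 0 := by
    intro α hα0 v hv
    by_cases h0 : ∑ i, α i = 0
    · by_cases hmin : ∀ B : Finset (Fin N), B.Nonempty → B ≠ univ → ∑ i ∈ B, α i ≠ 0
      · exact hf.wavg_minimal hm hN hmN a ha h0 hmin hv
      · push Not at hmin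
        obtain ⟨B, hB, hB', hBα⟩ := hmin
        refine sum_eq_zero fun h _ => ?_
        simp only
        rw [hf.comp_B_zero hB hB' hα0 hBα (onX_mulVec h hv), mul_zero]
    · refine sum_eq_zero fun h _ => ?_
      simp only
      rw [hf.comp_sum_ne h0 (onX_mulVec h hv), mul_zero]
  refine ⟨(a.sum fun _ c => (c : 𝕜)) * V / (m : 𝕜) ^ N, fun v hv => ?_⟩
  have h1 : ∑ α : Fin N → ZMod m, wavg a (comp f α) v = (m : 𝕜) ^ N * wavg a f v := by
    simp only [wavg, Finsupp.sum]
    rw [sum_comm]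
    simp only [← mul_sum, sum_comp]
    rw [mul_sum]
    refine sum_congr rfl fun g _ => ?_
    ring
  have h2 : ∑ α : Fin N → ZMod m, wavg a (comp f α) v = (a.sum fun _ c => (c : 𝕜)) * V := by
    rw [sum_eq_single 0]
    · have h3 : ∀ h : FermatGroup 𝕜 N m, comp f 0 (h.1.1.mulVec v) = V :=
        fun h => hV _ (onX_mulVec h hv)
      simp only [wavg, Finsupp.sum, h3, sum_mul]
    · intro α _ hα0
      exact hα α hα0 v hv
    · intro h
      exact absurd (mem_univ _) h
  rw [h1] at h2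
  rw [← h2, mul_div_cancel_left₀ _ (pow_ne_zero _ m_ne_zero)]

end Pool.Agent.T2H37.FK
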