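import Pool.Agent.T2H37.FK.Four

/-!
# Matrices preserving the Fermat form, and invariant forms
-/

set_option autoImplicit false
set_option linter.unusedSectionVars false
set_option linter.unusedSimpArgs false

namespace Pool.Agent.T2H37.FK

open MvPolynomial Finset

variable {𝕜 : Type*} [Field 𝕜] [IsAlgClosed 𝕜] [CharZero 𝕜]

variable {N m : ℕ}

lemma lin_row (g : GL (Fin N) 𝕜) (l : Fin N) (v : Fin N → 𝕜) :
    eval v (lin (g.1 l)) = g.1.mulVec v l := by
  rw [eval_lin]
  rfl

lemma pderiv_lin (j : Fin N) (v : Fin N → 𝕜) : pderiv j (lin v) = C (v j) := by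
  rw [lin, map_sum, sum_eq_single j]
  · rw [Derivation.leibniz, pderiv_X_self, pderiv_C]
    simp
  · intro i _ hi
    rw [Derivation.leibniz, pderiv_X_of_ne hi, pderiv_C]
    simp
  · intro h
    exact absurd (mem_univ j) h

lemma key_orth (hm : 3 ≤ m) (g : FermatGroup 𝕜 N m) {j k : Fin N} (hjk : j ≠ k) (v : Fin N → 𝕜) :
    ∑ l, g.1.1 l j * g.1.1 l k * (g.1.1.mulVec v l) ^ (m - 2) = 0 := by
  have h1 : ∑ l, (lin (g.1.1 l)) ^ m = ∑ l, (X l : MvPolynomial (Fin N) 𝕜) ^ m := by
    apply MvPolynomial.funext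
    intro u
    rw [map_sum, map_sum]
    simp only [map_pow, lin_row, eval_X]
    exact g.2 u
  have h2 := congrArg (pderiv j) h1
  rw [map_sum, map_sum] at h2
  have h3 : ∑ l, pderiv j ((X l : MvPolynomial (Fin N) 𝕜) ^ m) = C (m : 𝕜) * X j ^ (m - 1) := by
    rw [sum_eq_single j]
    · rw [Derivation.leibniz_pow, pderiv_X_self]
      simp
    · intro l _ hl
      rw [Derivation.leibniz_pow, pderiv_X_of_ne hl]
      simp
    · intro h
      exact absurd (mem_univ j) h
  rw [h3] at h2
  have h4 := congrArg (pderiv k) h2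
  have h5 : pderiv k (C (m : 𝕜) * (X j : MvPolynomial (Fin N) 𝕜) ^ (m - 1)) = 0 := by
    rw [Derivation.leibniz, pderiv_C, Derivation.leibniz_pow, pderiv_X_of_ne hjk]
    simp
  rw [h5, map_sum] at h4
  have h6 : ∀ l, pderiv k (pderiv j ((lin (g.1.1 l)) ^ m)) =
      C ((m : 𝕜) * ((m - 1 : ℕ) : 𝕜)) *
        (C (g.1.1 l j) * C (g.1.1 l k) * (lin (g.1.1 l)) ^ (m - 2)) := by
    intro l
    rw [Derivation.leibniz_pow, pderiv_lin, map_nsmul, smul_eq_mul, Derivation.leibniz, pderiv_C,
      smul_zero, zero_add, Derivation.leibniz_pow, pderiv_lin]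
    simp only [smul_eq_mul, nsmul_eq_mul, C_mul, Nat.sub_sub, map_natCast]
    ring
  simp only [h6] at h4
  rw [← mul_sum] at h4
  have h7 : (C ((m : 𝕜) * ((m - 1 : ℕ) : 𝕜)) : MvPolynomial (Fin N) 𝕜) ≠ 0 := by
    rw [Ne, C_eq_zero]
    refine mul_ne_zero ?_ ?_
    · exact Nat.cast_ne_zero.2 (by omega)
    · exact Nat.cast_ne_zero.2 (by omega)
  have h8 := (mul_eq_zero.1 h4).resolve_left h7
  have h9 := congrArg (eval v) h8
  rw [map_sum, map_zero] at h9
  simpa [lin_row] using h9

lemma entry_zero (hm : 3 ≤ m) (g : FermatGroup 𝕜 N m) {j k : Fin N} (hjk : j ≠ k) (l : Fin N) :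
    g.1.1 l j * g.1.1 l k = 0 := by
  have h1 := key_orth hm g hjk (g.1⁻¹.1.mulVec (Pi.single l 1))
  have h2 : g.1.1.mulVec (g.1⁻¹.1.mulVec (Pi.single l 1)) = Pi.single l 1 := by
    rw [Matrix.mulVec_mulVec, ← Units.val_mul, mul_inv_cancel, Units.val_one, Matrix.one_mulVec]
  rw [h2, sum_eq_single l] at h1
  · simpa using h1
  · intro i _ hi
    rw [Pi.single_eq_of_ne hi, zero_pow (by omega), mul_zero]
  · intro h
    exact absurd (mem_univ l) h

/-- matrices preserving the Fermat form are monomial -/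
theorem monomial_form [NeZero m] (hm : 3 ≤ m) (g : FermatGroup 𝕜 N m) :
    ∃ (k : Fin N → ZMod m) (σ : Equiv.Perm (Fin N)),
      ∀ l j, g.1.1 l j = if j = σ l then e 𝕜 (k l) else 0 := by
  have hrow : ∀ l, ∃ j, g.1.1 l j ≠ 0 := by
    intro l
    by_contra hcon
    push Not at hcon
    have h1 : g.1.1.mulVec (g.1⁻¹.1.mulVec (Pi.single l 1)) l = 0 := by
      rw [Matrix.mulVec, dotProduct]
      refine sum_eq_zero fun j _ => ?_
      rw [hcon j, zero_mul]
    have h2 : g.1.1.mulVec (g.1⁻¹.1.mulVec (Pi.single l 1)) = Pi.single l 1 := by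
      rw [Matrix.mulVec_mulVec, ← Units.val_mul, mul_inv_cancel, Units.val_one, Matrix.one_mulVec]
    rw [h2, Pi.single_eq_same] at h1
    exact one_ne_zero h1
  choose s hs using hrow
  have hz : ∀ l j, j ≠ s l → g.1.1 l j = 0 := fun l j hj =>
    (mul_eq_zero.1 (entry_zero hm g hj l)).resolve_right (hs l)
  have hmv : ∀ v l, g.1.1.mulVec v l = g.1.1 l (s l) * v (s l) := by
    intro v l
    rw [Matrix.mulVec, dotProduct, sum_eq_single (s l)]
    · intro j _ hj
      rw [hz l j hj, zero_mul]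
    · intro h
      exact absurd (mem_univ _) h
  have hinj : Function.Injective s := by
    intro l l' hll
    by_contra hne
    have h2 : g.1.1.mulVec (g.1⁻¹.1.mulVec (Pi.single l 1)) = Pi.single l 1 := by
      rw [Matrix.mulVec_mulVec, ← Units.val_mul, mul_inv_cancel, Units.val_one, Matrix.one_mulVec]
    have h3 := congrFun h2 l
    have h4 := congrFun h2 l'
    rw [hmv, Pi.single_eq_same] at h3
    rw [hmv, Pi.single_eq_of_ne (Ne.symm hne), ← hll] at h4
    have h5 := (mul_eq_zero.1 h4).resolve_left (by rw [hll]; exact hs l')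
    rw [h5, mul_zero] at h3
    exact zero_ne_one h3
  have hbij : Function.Bijective s := Finite.injective_iff_bijective.1 hinj
  have hpow : ∀ l, (g.1.1 l (s l)) ^ m = 1 := by
    intro l
    have h1 := g.2 (Pi.single (s l) 1)
    rw [sum_eq_single l, sum_eq_single (s l)] at h1
    · rw [hmv, Pi.single_eq_same, mul_one, one_pow] at h1
      exact h1
    · intro i _ hi
      rw [Pi.single_eq_of_ne hi, zero_pow (NeZero.ne m)]
    · intro h
      exact absurd (mem_univ _) h
    · intro i _ hi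
      rw [hmv, Pi.single_eq_of_ne (fun h => hi (hinj h)), mul_zero, zero_pow (NeZero.ne m)]
    · intro h
      exact absurd (mem_univ _) h
  choose k hk using fun l => exists_e (hpow l)
  refine ⟨k, Equiv.ofBijective s hbij, fun l j => ?_⟩
  rw [Equiv.ofBijective_apply]
  split_ifs with h
  · rw [h, hk]
  · exact hz l j h

end Pool.Agent.T2H37.FK
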